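import Mathlib

/-!
Odd closed walks contain odd cycles. The lemmas on shortest odd closed walks are copied from the
starting file `Results/MP_92a29d_co/FourColours.lean`.
-/

set_option autoImplicit false

open Finset

namespace Pool.Agent.R47.OddCyc

/-- there is a walk of length `n` from `u` to `v` -/
def HW {V : Type*} (G : SimpleGraph V) (n : ℕ) (u v : V) : Prop :=
  ∃ p : G.Walk u v, p.length = n

/-- `c 0, c 1, …, c g = c 0` is a shortest odd closed walk, of length `g`. -/
structure MinOdd {V : Type*} (G : SimpleGraph V) (g : ℕ) (c : ℕ → V) : Prop where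
  adj : ∀ i < g, G.Adj (c i) (c (i+1))
  closed : c g = c 0
  odd : Odd g
  min : ∀ n, Odd n → n < g → ∀ v, ¬ HW G n v v

section walks
variable {V : Type*} {G : SimpleGraph V}

lemma HW.refl (u : V) : HW G 0 u u := ⟨SimpleGraph.Walk.nil, rfl⟩

lemma HW.of_adj {u v : V} (h : G.Adj u v) : HW G 1 u v :=
  ⟨SimpleGraph.Walk.cons h SimpleGraph.Walk.nil, rfl⟩

lemma HW.trans {a b : ℕ} {u v w : V} (h1 : HW G a u v) (h2 : HW G b v w) : HW G (a + b) u w := by
  obtain ⟨p, hp⟩ := h1
  obtain ⟨q, hq⟩ := h2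
  exact ⟨p.append q, by rw [SimpleGraph.Walk.length_append, hp, hq]⟩

lemma HW.symm {a : ℕ} {u v : V} (h1 : HW G a u v) : HW G a v u := by
  obtain ⟨p, hp⟩ := h1
  exact ⟨p.reverse, by rw [SimpleGraph.Walk.length_reverse, hp]⟩

lemma HW_seg (c : ℕ → V) (g : ℕ) (hc : ∀ i < g, G.Adj (c i) (c (i+1))) (i : ℕ) (d : ℕ)
    (h : i + d ≤ g) : HW G d (c i) (c (i + d)) := by
  induction d with
  | zero => exact HW.refl _
  | succ d ih =>
    have h1 := ih (by omega)
    exact h1.trans (HW.of_adj (hc (i+d) (by omega)))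

namespace MinOdd
variable {g : ℕ} {c : ℕ → V}

lemma arc1 (M : MinOdd G g c) {i j : ℕ} (hij : i ≤ j) (hj : j ≤ g) : HW G (j - i) (c i) (c j) := by
  have w1 := HW_seg c g M.adj i (j - i) (by omega)
  rwa [show i + (j - i) = j by omega] at w1

lemma arc2 (M : MinOdd G g c) {i j : ℕ} (hij : i ≤ j) (hj : j ≤ g) :
    HW G (g - (j - i)) (c i) (c j) := by
  have w2 := M.arc1 hj le_rfl
  rw [M.closed] at w2
  have w3 := M.arc1 (Nat.zero_le i) (hij.trans hj)
  have w4 := (w2.trans w3).symm
  rwa [show g - j + (i - 0) = g - (j - i) by omega] at w4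

lemma inj (M : MinOdd G g c) {i j : ℕ} (hij : i < j) (hj : j < g) : c i ≠ c j := by
  intro heq
  have w1 := M.arc1 hij.le hj.le
  have w2 := M.arc2 hij.le hj.le
  rw [← heq] at w1 w2
  obtain ⟨b, hb⟩ := M.odd
  rcases Nat.even_or_odd (j - i) with ⟨a, ha⟩ | ho
  · exact M.min (g - (j - i)) ⟨b - a, by omega⟩ (by omega) _ w2
  · exact M.min (j - i) ho (by omega) _ w1

lemma inj' (M : MinOdd G g c) {i j : ℕ} (hi : i < g) (hj : j < g) (h : c i = c j) : i = j := by
  rcases lt_trichotomy i j with h1 | h1 | h1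
  · exact absurd h (M.inj h1 hj)
  · exact h1
  · exact absurd h.symm (M.inj h1 hi)

end MinOdd

/-- If there is an odd closed walk, there is a shortest one. -/
lemma exists_minOdd {v : V} {n : ℕ} (hn : Odd n) (h : HW G n v v) :
    ∃ (g : ℕ) (v : V) (p : G.Walk v v), g ≤ n ∧ p.length = g ∧ MinOdd G g p.getVert := by
  classical
  have hex : ∃ n, Odd n ∧ ∃ v, HW G n v v := ⟨n, hn, v, h⟩
  obtain ⟨hodd, v', p, hp⟩ := Nat.find_spec hex
  refine ⟨Nat.find hex, v', p, Nat.find_min' hex ⟨hn, v, h⟩, hp, ?_⟩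
  constructor
  · intro i hi
    exact p.adj_getVert_succ (by rw [hp]; exact hi)
  · rw [← hp]; simp
  · exact hodd
  · intro n hn hlt v hv
    exact Nat.find_min hex hlt ⟨hn, v, hv⟩

/-- A graph which is not 2-colourable has an odd cycle. -/
theorem exists_odd_cycle {V : Type*} (G : SimpleGraph V) (h : ¬ G.Colorable 2) :
    ∃ (v : V) (p : G.Walk v v), p.IsCycle ∧ Odd p.length := by
  rw [SimpleGraph.two_colorable_iff_forall_loop_even] at h
  push Not at h
  obtain ⟨u, w, hw⟩ := h
  rw [Nat.not_even_iff_odd] at hw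
  obtain ⟨g, v', p, -, hp, M⟩ := exists_minOdd hw ⟨w, rfl⟩
  refine ⟨v', p, ?_, by rw [hp]; exact M.odd⟩
  have h3g : 3 ≤ g := by
    obtain ⟨b, hb⟩ := M.odd
    rcases Nat.lt_or_ge g 3 with h | h
    · have hg1 : g = 1 := by omega
      have := M.adj 0 (by omega)
      have h2 := M.closed
      rw [hg1] at h2
      simp only [zero_add] at this
      rw [h2] at this
      exact absurd rfl this.ne
    · exact h
  rw [SimpleGraph.Walk.isCycle_iff_isPath_tail_and_le_length]
  have hnil : ¬ p.Nil := by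
    intro hn
    have := SimpleGraph.Walk.length_eq_zero_iff.mpr hn
    omega
  have htl := SimpleGraph.Walk.length_tail_add_one hnil
  refine ⟨?_, by omega⟩
  rw [← SimpleGraph.Walk.IsPath.getVert_injOn_iff]
  intro a ha b hb hab
  simp only [Set.mem_ofPred_eq] at ha hb
  rw [SimpleGraph.Walk.getVert_tail, SimpleGraph.Walk.getVert_tail] at hab
  have key : ∀ a b, a < b → b ≤ p.tail.length → p.getVert (a+1) ≠ p.getVert (b+1) := by
    intro a b hab hb
    rcases Nat.lt_or_ge (b+1) g with h1 | h1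
    · exact M.inj (by omega) h1
    · have hbl : b + 1 = g := by omega
      rw [hbl, M.closed]
      exact (M.inj (by omega) (by omega)).symm
  by_contra hne
  rcases lt_or_gt_of_ne hne with h1 | h1
  · exact key a b h1 hb hab
  · exact key b a h1 ha hab.symm

end walks

end Pool.Agent.R47.OddCyc
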