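import Mathlib

/-!
# Certifying a distance function
-/

set_option autoImplicit false

namespace Pool.Agent.R47.DistMat

variable {V : Type*}

theorem le_length (G : SimpleGraph V) (D : V → V → ℕ) (h0 : ∀ u, D u u = 0)
    (h1 : ∀ u v w, G.Adj v w → D u w ≤ D u v + 1) {u v : V} (p : G.Walk u v) :
    D u v ≤ p.length := by
  have key : ∀ {a b : V} (q : G.Walk a b) (c : V), D c b ≤ D c a + q.length := by
    intro a b q
    induction q with
    | nil => intro c; simp
    | cons h q ih =>
      intro c
      have h2 := ih c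
      have h3 := h1 c _ _ h
      rw [SimpleGraph.Walk.length_cons]
      omega
  have := key p u
  rw [h0] at this
  omega

theorem exists_walk (G : SimpleGraph V) (D : V → V → ℕ)
    (h2 : ∀ u v, u ≠ v → ∃ w, G.Adj w v ∧ D u w + 1 = D u v) :
    ∀ (n : ℕ) (u v : V), D u v = n → ∃ p : G.Walk u v, p.length ≤ n := by
  intro n
  induction n with
  | zero =>
    intro u v h
    by_cases huv : u = v
    · subst huv
      exact ⟨SimpleGraph.Walk.nil, by simp⟩
    · obtain ⟨w, -, hw⟩ := h2 u v huv
      omega
  | succ n ih =>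
    intro u v h
    by_cases huv : u = v
    · subst huv
      exact ⟨SimpleGraph.Walk.nil, by simp⟩
    · obtain ⟨w, hwv, hw⟩ := h2 u v huv
      obtain ⟨p, hp⟩ := ih u w (by omega)
      refine ⟨p.concat hwv, ?_⟩
      rw [SimpleGraph.Walk.length_concat]
      omega

/-- A function with the local properties of the distance is the distance, and the graph is
connected. -/
theorem dist_eq (G : SimpleGraph V) (D : V → V → ℕ) (h0 : ∀ u, D u u = 0)
    (h1 : ∀ u v w, G.Adj v w → D u w ≤ D u v + 1)
    (h2 : ∀ u v, u ≠ v → ∃ w, G.Adj w v ∧ D u w + 1 = D u v) :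
    G.Preconnected ∧ ∀ u v, G.dist u v = D u v := by
  have hr : G.Preconnected := by
    intro u v
    obtain ⟨p, -⟩ := exists_walk G D h2 _ u v rfl
    exact ⟨p⟩
  refine ⟨hr, ?_⟩
  intro u v
  apply le_antisymm
  · obtain ⟨p, hp⟩ := exists_walk G D h2 _ u v rfl
    exact le_trans (SimpleGraph.dist_le p) hp
  · obtain ⟨p, hp⟩ := (hr u v).exists_walk_length_eq_dist
    rw [← hp]
    exact le_length G D h0 h1 p

end Pool.Agent.R47.DistMat
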