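import Mathlib

/-!
# A Diophantine lemma for generalized Petersen graphs
-/

set_option autoImplicit false

namespace Pool.Agent.R47.GPArith

theorem abs_add_le_max (x y : ℤ) (h : x * y ≤ 0) : |x + y| ≤ max |x| |y| := by
  rcases le_total 0 x with hx | hx <;> rcases le_total 0 y with hy | hy
  · rcases eq_or_lt_of_le hx with hx0 | hx0
    · rw [← hx0, zero_add]; exact le_max_right _ _
    · have : y ≤ 0 := by
        by_contra hc
        push Not at hc
        nlinarith
      have : y = 0 := le_antisymm this hy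
      rw [this, add_zero]; exact le_max_left _ _
  · rw [abs_of_nonneg hx, abs_of_nonpos hy, abs_le]
    constructor
    · have := le_max_right x (-y)
      linarith
    · have := le_max_left x (-y)
      linarith
  · rw [abs_of_nonpos hx, abs_of_nonneg hy, abs_le]
    constructor
    · have := le_max_left (-x) y
      linarith
    · have := le_max_right (-x) y
      linarith
  · rcases eq_or_lt_of_le hx with hx0 | hx0
    · rw [hx0, zero_add]; exact le_max_right _ _
    · have : 0 ≤ y := by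
        by_contra hc
        push Not at hc
        nlinarith
      have : y = 0 := le_antisymm hy this
      rw [this, add_zero]; exact le_max_left _ _

/-- A representative with a prescribed sign. -/
theorem window (a P c : ℤ) (ha : a ≠ 0) : ∃ t : ℤ, |P + 2 * t * a| ≤ 2 * |a| ∧
    c * (P + 2 * t * a) ≤ 0 := by
  have hM : 0 < 2 * |a| := by positivity
  have h1 : 0 ≤ P % (2 * |a|) := Int.emod_nonneg _ hM.ne'
  have h2 : P % (2 * |a|) < 2 * |a| := Int.emod_lt_of_pos _ hM
  have h3 : P % (2 * |a|) = P - 2 * |a| * (P / (2 * |a|)) := Int.emod_def _ _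
  have h1' : 0 ≤ (-P) % (2 * |a|) := Int.emod_nonneg _ hM.ne'
  have h2' : (-P) % (2 * |a|) < 2 * |a| := Int.emod_lt_of_pos _ hM
  have h3' : (-P) % (2 * |a|) = -P - 2 * |a| * ((-P) / (2 * |a|)) := Int.emod_def _ _
  obtain ⟨s, hs⟩ : ∃ s : ℤ, |a| = s * a := by
    rcases abs_choice a with h | h
    · exact ⟨1, by rw [h]; ring⟩
    · exact ⟨-1, by rw [h]; ring⟩
  rcases le_total c 0 with hc | hc
  · refine ⟨-(s * (P / (2 * |a|))), ?_⟩
    have h4 : P + 2 * -(s * (P / (2 * |a|))) * a = P % (2 * |a|) := by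
      rw [h3]
      linear_combination (2 * (P / (2 * |a|))) * hs
    rw [h4]
    refine ⟨?_, mul_nonpos_of_nonpos_of_nonneg hc h1⟩
    rw [abs_of_nonneg h1]
    exact h2.le
  · refine ⟨s * ((-P) / (2 * |a|)), ?_⟩
    have h4 : P + 2 * (s * ((-P) / (2 * |a|))) * a = -((-P) % (2 * |a|)) := by
      rw [h3']
      linear_combination (-(2 * ((-P) / (2 * |a|)))) * hs
    rw [h4]
    refine ⟨?_, mul_nonpos_of_nonneg_of_nonpos hc (by linarith)⟩
    rw [abs_neg, abs_of_nonneg h1']
    exact h2'.le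

theorem line (a b P Q N : ℤ) (hab : |b| ≤ |a|) (h5 : 5 ≤ |a|) (haN : |a| ≤ N)
    (hE : |a * Q - b * P| ≤ 10 * N) :
    ∃ t : ℤ, |P + 2 * t * a| ≤ 2 * N ∧ |Q + 2 * t * b| ≤ 2 * N := by
  have ha : a ≠ 0 := by
    rintro rfl
    simp at h5
  obtain ⟨t, h1, h2⟩ := window a P ((a * Q - b * P) * b) ha
  refine ⟨t, by linarith, ?_⟩
  set P' := P + 2 * t * a with hP'
  have h3 : a * (Q + 2 * t * b) = (a * Q - b * P) + b * P' := by
    rw [hP']; ring
  have h4 : |a| * |Q + 2 * t * b| ≤ max |a * Q - b * P| |b * P'| := by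
    rw [← abs_mul, h3]
    apply abs_add_le_max
    calc (a * Q - b * P) * (b * P') = (a * Q - b * P) * b * P' := by ring
      _ ≤ 0 := h2
  have hQ0 : 0 ≤ |Q + 2 * t * b| := abs_nonneg _
  rcases le_total |a * Q - b * P| |b * P'| with h5' | h5'
  · rw [max_eq_right h5', abs_mul] at h4
    have h6 : |b| * |P'| ≤ |a| * (2 * |a|) :=
      mul_le_mul hab h1 (abs_nonneg _) (abs_nonneg _)
    have h7 : |a| * |Q + 2 * t * b| ≤ |a| * (2 * |a|) := h4.trans h6
    have h8 : |Q + 2 * t * b| ≤ 2 * |a| := le_of_mul_le_mul_left h7 (by linarith)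
    linarith
  · rw [max_eq_left h5'] at h4
    nlinarith

theorem z2_cases : ∀ a b c d T1 T2 : ZMod 2, a * d - c * b = 1 → ¬ (T1 = 0 ∧ T2 = 0) →
    ¬ (a = T1 ∧ b = T2) → (c = T1 ∧ d = T2) ∨ (c + a = T1 ∧ d + b = T2) := by
  decide

/-- The second vector. -/
theorem second (n k N : ℤ) (T1 T2 : ZMod 2) (hT : ¬ (T1 = 0 ∧ T2 = 0)) (m j : ℤ)
    (hcop : IsCoprime m j) (hmj : ¬ ((m : ZMod 2) = T1 ∧ (j : ZMod 2) = T2))
    (h5 : 5 ≤ |m| + |k * m - j * n|) (hN : |m| + |k * m - j * n| ≤ N) (hn0 : 0 ≤ n)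
    (hn : n ≤ 5 * N) :
    ∃ m' j' : ℤ, (m' : ZMod 2) = T1 ∧ (j' : ZMod 2) = T2 ∧ |m'| + |k * m' - j' * n| ≤ 2 * N := by
  obtain ⟨α, β, hαβ⟩ := hcop
  -- a vector `w` with determinant one, in the right class
  obtain ⟨c, d, hdet, hc, hd⟩ : ∃ c d : ℤ, m * d - c * j = 1 ∧ (c : ZMod 2) = T1 ∧
      (d : ZMod 2) = T2 := by
    have hdet : m * α - (-β) * j = 1 := by linarith
    have h2 : (m : ZMod 2) * (α : ZMod 2) - ((-β : ℤ) : ZMod 2) * (j : ZMod 2) = 1 := by
      exact_mod_cast congrArg (Int.cast : ℤ → ZMod 2) hdet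
    rcases z2_cases _ _ _ _ T1 T2 h2 hT hmj with ⟨h3, h4⟩ | ⟨h3, h4⟩
    · exact ⟨-β, α, hdet, h3, h4⟩
    · refine ⟨-β + m, α + j, by linarith, ?_, ?_⟩
      · push_cast at h3 ⊢; exact h3
      · push_cast; exact h4
  set y := k * m - j * n with hy
  set z := k * c - d * n with hz
  have hE : (m + y) * (c - z) - (m - y) * (c + z) = 2 * n := by
    have : m * z - c * y = -n * (m * d - c * j) := by rw [hy, hz]; ring
    rw [hdet] at this
    linarith
  have hclass : ∀ t : ℤ, (((c + 2 * t * m : ℤ)) : ZMod 2) = T1 ∧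
      (((d + 2 * t * j : ℤ)) : ZMod 2) = T2 := by
    intro t
    have h2 : (2 : ZMod 2) = 0 := by decide
    push_cast
    rw [h2, zero_mul, zero_mul, zero_mul, add_zero, add_zero]
    exact ⟨hc, hd⟩
  have hsum : ∀ t : ℤ, k * (c + 2 * t * m) - (d + 2 * t * j) * n = z + 2 * t * y := by
    intro t
    rw [hy, hz]; ring
  have hmax : ∀ x y : ℤ, |x| + |y| = max |x + y| |x - y| := by
    intro x y
    rcases abs_cases x with ⟨h1, h1'⟩ | ⟨h1, h1'⟩ <;> rcases abs_cases y with ⟨h2, h2'⟩ | ⟨h2, h2'⟩ <;>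
      rcases abs_cases (x + y) with ⟨h3, h3'⟩ | ⟨h3, h3'⟩ <;>
      rcases abs_cases (x - y) with ⟨h4, h4'⟩ | ⟨h4, h4'⟩ <;>
      rw [h1, h2, h3, h4] <;> omega
  have hmm := hmax m y
  rcases le_total |m - y| |m + y| with hle | hle
  · rw [max_eq_left hle] at hmm
    obtain ⟨t, ht1, ht2⟩ := line (m + y) (m - y) (c + z) (c - z) N hle (by linarith) (by linarith)
      (by rw [hE, abs_of_nonneg (by linarith)]; linarith)
    refine ⟨c + 2 * t * m, d + 2 * t * j, (hclass t).1, (hclass t).2, ?_⟩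
    rw [hsum, hmax]
    apply max_le
    · have : c + 2 * t * m + (z + 2 * t * y) = c + z + 2 * t * (m + y) := by ring
      rw [this]; exact ht1
    · have : c + 2 * t * m - (z + 2 * t * y) = c - z + 2 * t * (m - y) := by ring
      rw [this]; exact ht2
  · rw [max_eq_right hle] at hmm
    obtain ⟨t, ht1, ht2⟩ := line (m - y) (m + y) (c - z) (c + z) N hle (by linarith) (by linarith)
      (by
        have : (m - y) * (c + z) - (m + y) * (c - z) = -(2 * n) := by linarith
        rw [this, abs_neg, abs_of_nonneg (by linarith)]; linarith)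
    refine ⟨c + 2 * t * m, d + 2 * t * j, (hclass t).1, (hclass t).2, ?_⟩
    rw [hsum, hmax]
    apply max_le
    · have : c + 2 * t * m + (z + 2 * t * y) = c + z + 2 * t * (m + y) := by ring
      rw [this]; exact ht2
    · have : c + 2 * t * m - (z + 2 * t * y) = c - z + 2 * t * (m - y) := by ring
      rw [this]; exact ht1

/-- Short vectors outside the class `T` only occur for the exceptional parameters. -/
theorem short (n k : ℕ) (hn : 86 ≤ n) (hk : 1 ≤ k) (h2k : 2 * k < n) (hk2 : k ≠ 2)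
    (hn2 : n ≠ 2 * k + 1) (hn3 : n ≠ 3 * k) (hpar : n % 2 = 1 ∨ k % 2 = 0) (m j : ℤ) (hm : 0 < m)
    (hcop : IsCoprime m j) (hshort : |m| + |(k : ℤ) * m - j * n| ≤ 4) :
    (m : ZMod 2) = (n : ZMod 2) ∧ (j : ZMod 2) = (k : ZMod 2) + 1 := by
  rw [abs_of_pos hm] at hshort
  have h0 : 0 ≤ |(k : ℤ) * m - j * n| := abs_nonneg _
  have hm4 : m ≤ 4 := by linarith
  have habs := abs_le.1 (by linarith : |(k : ℤ) * m - j * n| ≤ 4 - m)
  have hn' : (86 : ℤ) ≤ n := by exact_mod_cast hn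
  have hk' : (1 : ℤ) ≤ k := by exact_mod_cast hk
  have h2k' : 2 * (k : ℤ) < n := by exact_mod_cast h2k
  have hj0 : 0 ≤ j := by
    by_contra hc
    have h1 : j ≤ -1 := by omega
    have : j * n ≤ -1 * n := mul_le_mul_of_nonneg_right h1 (by linarith)
    have h2 : 0 ≤ (k : ℤ) * m := by positivity
    linarith [habs.2]
  have hj2 : j ≤ 2 := by
    by_contra hc
    have h1 : 3 ≤ j := by omega
    have h2 : 3 * (n : ℤ) ≤ j * n := mul_le_mul_of_nonneg_right h1 (by linarith)
    have h3 : (k : ℤ) * m ≤ k * 4 := mul_le_mul_of_nonneg_left hm4 (by linarith)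
    linarith [habs.1]
  have hz : ∀ a b : ℕ, a % 2 = b % 2 → (a : ZMod 2) = (b : ZMod 2) := by
    intro a b h
    exact (ZMod.natCast_eq_natCast_iff' a b 2).2 h
  have hcases : (m = 1 ∨ m = 2 ∨ m = 3 ∨ m = 4) ∧ (j = 0 ∨ j = 1 ∨ j = 2) := by omega
  obtain ⟨hm', hj'⟩ := hcases
  rcases hm' with rfl | rfl | rfl | rfl <;> rcases hj' with rfl | rfl | rfl
  · -- (1, 0)
    have h1 : k = 1 ∨ k = 3 := by omega
    have h2 : n % 2 = 1 := by omega
    refine ⟨?_, ?_⟩
    · have := hz 1 n (by omega)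
      push_cast at this ⊢
      exact this
    · have := hz 0 (k + 1) (by omega)
      push_cast at this ⊢
      exact this
  · exfalso; omega
  · exfalso; omega
  · -- (2, 0)
    exfalso
    rw [isCoprime_zero_right] at hcop
    exact absurd hcop (by decide)
  · -- (2, 1)
    have h1 : n = 2 * k + 2 := by omega
    refine ⟨?_, ?_⟩
    · have := hz 2 n (by omega)
      push_cast at this ⊢
      exact this
    · have := hz 1 (k + 1) (by omega)
      push_cast at this ⊢
      exact this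
  · exfalso; omega
  · exfalso; omega
  · -- (3, 1)
    refine ⟨?_, ?_⟩
    · have := hz 3 n (by omega)
      push_cast at this ⊢
      exact this
    · have := hz 1 (k + 1) (by omega)
      push_cast at this ⊢
      exact this
  · exfalso; omega
  · exfalso; omega
  · -- (4, 1)
    refine ⟨?_, ?_⟩
    · have := hz 4 n (by omega)
      push_cast at this ⊢
      exact this
    · have := hz 1 (k + 1) (by omega)
      push_cast at this ⊢
      exact this
  · exfalso; omega

/-- The required pair for large `n`. -/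
theorem large (n k : ℕ) (hn : 86 ≤ n) (hk : 1 ≤ k) (h2k : 2 * k < n) (hk2 : k ≠ 2)
    (hn2 : n ≠ 2 * k + 1) (hn3 : n ≠ 3 * k) (hpar : n % 2 = 1 ∨ k % 2 = 0) :
    ∃ m j : ℤ, (m : ZMod 2) = (n : ZMod 2) ∧ (j : ZMod 2) = (k : ZMod 2) + 1 ∧
      |m| + |(k : ℤ) * m - j * n| ≤ 2 * ((n + 4) / 5 : ℕ) := by
  set N := (n + 4) / 5 with hN
  set s := Nat.sqrt n with hs
  have hs1 : s * s ≤ n := Nat.sqrt_le n
  have hs2 : n < (s + 1) * (s + 1) := Nat.lt_succ_sqrt n
  have hs9 : 9 ≤ s := by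
    by_contra hc
    have : s + 1 ≤ 9 := by omega
    have : (s + 1) * (s + 1) ≤ 9 * 9 := Nat.mul_le_mul this this
    omega
  have hsN : 2 * s ≤ N := by
    rcases Nat.lt_or_ge s 10 with h | h
    · have : s = 9 := by omega
      omega
    · have : 10 * s ≤ s * s := Nat.mul_le_mul_right s h
      omega
  obtain ⟨j, m, hm0, hms, hmj⟩ := Real.exists_int_int_abs_mul_sub_le ((k : ℝ) / n)
    (by omega : 0 < s)
  have hn0 : (0 : ℝ) < n := by
    have : 0 < n := by omega
    exact_mod_cast this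
  -- clear denominators
  have hy : |(k : ℤ) * m - j * n| ≤ s := by
    have h1 : |(m : ℝ) * ((k : ℝ) / n) - j| = |(k : ℝ) * m - j * n| / n := by
      rw [eq_div_iff hn0.ne', ← abs_of_pos hn0, ← abs_mul, abs_of_pos hn0]
      congr 1
      field_simp
    rw [h1, div_le_div_iff₀ hn0 (by positivity)] at hmj
    have h2 : |(k : ℤ) * m - j * n| * (s + 1) ≤ n := by
      have : (|(k : ℝ) * m - j * n|) * (s + 1) ≤ n := by linarith
      exact_mod_cast this
    by_contra hc
    push Not at hc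
    have h3 : ((s : ℤ) + 1) * (s + 1) ≤ |(k : ℤ) * m - j * n| * (s + 1) := by
      apply mul_le_mul_of_nonneg_right _ (by positivity)
      linarith
    have h4 : (n : ℤ) < ((s : ℤ) + 1) * (s + 1) := by exact_mod_cast hs2
    linarith
  -- make the pair coprime
  obtain ⟨m₁, j₁, hm₁, hcop, hF⟩ : ∃ m₁ j₁ : ℤ, 0 < m₁ ∧ IsCoprime m₁ j₁ ∧
      |m₁| + |(k : ℤ) * m₁ - j₁ * n| ≤ 2 * s := by
    set g : ℤ := (Int.gcd m j : ℤ) with hg
    have hg0 : 0 < g := by
      have : 0 < Int.gcd m j := Int.gcd_pos_of_ne_zero_left _ hm0.ne'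
      rw [hg]
      exact_mod_cast this
    obtain ⟨m₁, hm₁⟩ : g ∣ m := Int.gcd_dvd_left m j
    obtain ⟨j₁, hj₁⟩ : g ∣ j := Int.gcd_dvd_right m j
    have hm₁0 : 0 < m₁ := by
      by_contra hc
      push Not at hc
      have h1 := mul_nonpos_of_nonneg_of_nonpos hg0.le hc
      rw [← hm₁] at h1
      linarith
    refine ⟨m₁, j₁, hm₁0, ?_, ?_⟩
    · rw [Int.isCoprime_iff_gcd_eq_one]
      have h1 : Int.gcd (g * m₁) (g * j₁) = Int.natAbs g * Int.gcd m₁ j₁ := Int.gcd_mul_left _ _ _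
      rw [← hm₁, ← hj₁] at h1
      have h2 : Int.natAbs g = Int.gcd m j := by rw [hg]; exact Int.natAbs_natCast _
      rw [h2] at h1
      have h3 : 0 < Int.gcd m j := Int.gcd_pos_of_ne_zero_left _ hm0.ne'
      exact Nat.eq_of_mul_eq_mul_left h3 (by rw [mul_one]; exact h1.symm)
    · have h1 : |m| = g * |m₁| := by rw [hm₁, abs_mul, abs_of_pos hg0]
      have h2 : |(k : ℤ) * m - j * n| = g * |(k : ℤ) * m₁ - j₁ * n| := by
        rw [hm₁, hj₁, ← abs_of_pos hg0, ← abs_mul, abs_of_pos hg0]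
        congr 1
        ring
      have h3 : |m₁| ≤ g * |m₁| := le_mul_of_one_le_left (abs_nonneg _) hg0
      have h4 : |(k : ℤ) * m₁ - j₁ * n| ≤ g * |(k : ℤ) * m₁ - j₁ * n| :=
        le_mul_of_one_le_left (abs_nonneg _) hg0
      have h5 : |m| ≤ s := by rw [abs_of_pos hm0]; exact hms
      linarith
  by_cases hT : (m₁ : ZMod 2) = (n : ZMod 2) ∧ (j₁ : ZMod 2) = (k : ZMod 2) + 1
  · exact ⟨m₁, j₁, hT.1, hT.2, by
      have : (2 * s : ℤ) ≤ N := by exact_mod_cast hsN
      have h0 : (0 : ℤ) ≤ N := by positivity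
      push_cast
      linarith⟩
  · have h5 : 5 ≤ |m₁| + |(k : ℤ) * m₁ - j₁ * n| := by
      by_contra hc
      push Not at hc
      exact hT (short n k hn hk h2k hk2 hn2 hn3 hpar m₁ j₁ hm₁ hcop (by linarith))
    have hsN' : (2 * s : ℤ) ≤ (N : ℤ) := by exact_mod_cast hsN
    have hnN : (n : ℤ) ≤ 5 * (N : ℤ) := by
      have : n ≤ 5 * N := by omega
      exact_mod_cast this
    have hT0 : ¬ ((n : ZMod 2) = 0 ∧ (k : ZMod 2) + 1 = 0) := by
      rintro ⟨h1, h2⟩
      rcases hpar with h | h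
      · have : (n : ZMod 2) = ((1 : ℕ) : ZMod 2) := (ZMod.natCast_eq_natCast_iff' n 1 2).2 h
        rw [this] at h1
        exact absurd h1 (by decide)
      · have : (k : ZMod 2) = ((0 : ℕ) : ZMod 2) := (ZMod.natCast_eq_natCast_iff' k 0 2).2 h
        rw [this] at h2
        exact absurd h2 (by decide)
    obtain ⟨m', j', h1, h2, h3⟩ := second n k N _ _ hT0 m₁ j₁ hcop hT h5 (by linarith)
      (by positivity) hnN
    exact ⟨m', j', h1, h2, h3⟩

/-- Finite check. -/
def chk (n k : ℕ) : Bool :=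
  (List.range (2 * ((n + 4) / 5) + 1)).any fun m =>
    (m % 2 == n % 2) && (if (k * m / n + k) % 2 = 1 then decide (m + k * m % n ≤ 2 * ((n + 4) / 5))
      else decide (m + (n - k * m % n) ≤ 2 * ((n + 4) / 5)))

/-- Finite check for all small parameters. -/
def chkAll : Bool :=
  (List.range 86).all fun n => (List.range 43).all fun k =>
    decide (n < 3) || decide (k < 1) || decide (n ≤ 2 * k) || decide (k = 2) ||
      decide (n = 2 * k + 1) || (decide (n % 2 = 0) && decide (k % 2 = 1)) || chk n k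

theorem chkAll_eq : chkAll = true := by decide +kernel

theorem small (n k : ℕ) (hn0 : 3 ≤ n) (hn : n < 86) (hk : 1 ≤ k) (h2k : 2 * k < n) (hk2 : k ≠ 2)
    (hn2 : n ≠ 2 * k + 1) (hpar : n % 2 = 1 ∨ k % 2 = 0) :
    ∃ m j : ℤ, (m : ZMod 2) = (n : ZMod 2) ∧ (j : ZMod 2) = (k : ZMod 2) + 1 ∧
      |m| + |(k : ℤ) * m - j * n| ≤ 2 * ((n + 4) / 5 : ℕ) := by
  have h := chkAll_eq
  unfold chkAll at h
  rw [List.all_eq_true] at h
  have h1 := h n (List.mem_range.2 hn)
  rw [List.all_eq_true] at h1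
  have h2 := h1 k (List.mem_range.2 (by omega))
  simp only [Bool.or_eq_true, Bool.and_eq_true, decide_eq_true_eq] at h2
  have h3 : chk n k = true := by
    rcases h2 with (((((h2 | h2) | h2) | h2) | h2) | h2) | h2
    · omega
    · omega
    · omega
    · omega
    · omega
    · omega
    · exact h2
  unfold chk at h3
  rw [List.any_eq_true] at h3
  obtain ⟨m, -, hm⟩ := h3
  rw [Bool.and_eq_true] at hm
  obtain ⟨hm1, hm2⟩ := hm
  have hm1' : m % 2 = n % 2 := by simpa using hm1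
  have hz : ∀ a b : ℕ, a % 2 = b % 2 → (a : ZMod 2) = (b : ZMod 2) := by
    intro a b h
    exact (ZMod.natCast_eq_natCast_iff' a b 2).2 h
  have hdiv := Nat.div_add_mod (k * m) n
  have hlt : k * m % n < n := Nat.mod_lt _ (by omega)
  have hdiv' : (n : ℤ) * ((k * m / n : ℕ) : ℤ) + ((k * m % n : ℕ) : ℤ) = k * m := by
    exact_mod_cast hdiv
  by_cases hc : (k * m / n + k) % 2 = 1
  · rw [if_pos hc, decide_eq_true_eq] at hm2
    refine ⟨m, ((k * m / n : ℕ) : ℤ), ?_, ?_, ?_⟩
    · have := hz m n hm1'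
      push_cast
      exact this
    · have := hz (k * m / n) (k + 1) (by omega)
      rw [Int.cast_natCast, this]
      push_cast
      rfl
    · have h4 : (k : ℤ) * m - ((k * m / n : ℕ) : ℤ) * n = ((k * m % n : ℕ) : ℤ) := by linarith
      rw [h4, abs_of_nonneg (by positivity), abs_of_nonneg (by positivity)]
      exact_mod_cast hm2
  · rw [if_neg hc, decide_eq_true_eq] at hm2
    refine ⟨m, ((k * m / n + 1 : ℕ) : ℤ), ?_, ?_, ?_⟩
    · have := hz m n hm1'
      push_cast
      exact this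
    · have := hz (k * m / n + 1) (k + 1) (by omega)
      rw [Int.cast_natCast, this]
      push_cast
      rfl
    · have h4 : (k : ℤ) * m - ((k * m / n + 1 : ℕ) : ℤ) * n = -((n - k * m % n : ℕ) : ℤ) := by
        rw [Nat.cast_sub hlt.le]
        push_cast at hdiv' ⊢
        linarith
      rw [h4, abs_neg, abs_of_nonneg (by positivity), abs_of_nonneg (by positivity)]
      exact_mod_cast hm2

/-- The case `n = 3 k`. -/
theorem three (k : ℕ) (hk : 1 ≤ k) : ∃ m j : ℤ,
    (m : ZMod 2) = ((3 * k : ℕ) : ZMod 2) ∧ (j : ZMod 2) = (k : ZMod 2) + 1 ∧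
      |m| + |(k : ℤ) * m - j * ((3 * k : ℕ) : ℤ)| ≤ 2 * ((3 * k + 4) / 5 : ℕ) := by
  have hz : ∀ a b : ℕ, a % 2 = b % 2 → (a : ZMod 2) = (b : ZMod 2) := by
    intro a b h
    exact (ZMod.natCast_eq_natCast_iff' a b 2).2 h
  rcases Nat.even_or_odd k with he | ho
  · obtain ⟨c, hc⟩ := he
    refine ⟨2, 1, ?_, ?_, ?_⟩
    · have := hz 2 (3 * k) (by omega)
      push_cast at this ⊢
      exact this
    · have := hz 1 (k + 1) (by omega)
      push_cast at this ⊢
      exact this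
    · have h4 : (k : ℤ) * 2 - 1 * ((3 * k : ℕ) : ℤ) = -(k : ℤ) := by push_cast; ring
      rw [h4, abs_neg, abs_of_nonneg (by positivity : (0 : ℤ) ≤ k)]
      have : 2 + k ≤ 2 * ((3 * k + 4) / 5) := by omega
      have h5 : |(2 : ℤ)| = 2 := by norm_num
      rw [h5]
      exact_mod_cast this
  · obtain ⟨c, hc⟩ := ho
    refine ⟨1, 0, ?_, ?_, ?_⟩
    · have := hz 1 (3 * k) (by omega)
      push_cast at this ⊢
      exact this
    · have := hz 0 (k + 1) (by omega)
      push_cast at this ⊢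
      exact this
    · have h4 : (k : ℤ) * 1 - 0 * ((3 * k : ℕ) : ℤ) = (k : ℤ) := by ring
      rw [h4, abs_of_nonneg (by positivity : (0 : ℤ) ≤ k)]
      have : 1 + k ≤ 2 * ((3 * k + 4) / 5) := by omega
      have h5 : |(1 : ℤ)| = 1 := by norm_num
      rw [h5]
      exact_mod_cast this

/-- The required pair, in all cases but `k = 2` and `n = 2 k + 1`. -/
theorem exists_pair (n k : ℕ) (hn0 : 3 ≤ n) (hk : 1 ≤ k) (h2k : 2 * k < n) (hk2 : k ≠ 2)
    (hn2 : n ≠ 2 * k + 1) :
    ∃ (m : ℕ) (j : ℤ), (m : ZMod 2) = (n : ZMod 2) ∧ (j : ZMod 2) = (k : ZMod 2) + 1 ∧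
      (m : ℤ) + |(k : ℤ) * m - j * n| ≤ 2 * ((n + 4) / 5 : ℕ) := by
  have key : ∃ m j : ℤ, (m : ZMod 2) = (n : ZMod 2) ∧ (j : ZMod 2) = (k : ZMod 2) + 1 ∧
      |m| + |(k : ℤ) * m - j * n| ≤ 2 * ((n + 4) / 5 : ℕ) := by
    by_cases hpar : n % 2 = 1 ∨ k % 2 = 0
    · by_cases hn3 : n = 3 * k
      · subst hn3
        exact three k hk
      · rcases Nat.lt_or_ge n 86 with h | h
        · exact small n k hn0 h hk h2k hk2 hn2 hpar
        · exact large n k h hk h2k hk2 hn2 hn3 hpar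
    · push Not at hpar
      have hz : ∀ a b : ℕ, a % 2 = b % 2 → (a : ZMod 2) = (b : ZMod 2) := by
        intro a b h
        exact (ZMod.natCast_eq_natCast_iff' a b 2).2 h
      refine ⟨0, 0, ?_, ?_, ?_⟩
      · have := hz 0 n (by omega)
        push_cast at this ⊢
        exact this
      · have := hz 0 (k + 1) (by omega)
        push_cast at this ⊢
        exact this
      · simp only [abs_zero, mul_zero, zero_mul, sub_zero, add_zero]
        positivity
  obtain ⟨m, j, h1, h2, h3⟩ := key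
  obtain ⟨a, ha | ha⟩ := Int.eq_nat_or_neg m
  · subst ha
    refine ⟨a, j, by exact_mod_cast h1, h2, ?_⟩
    rw [abs_of_nonneg (by positivity : (0 : ℤ) ≤ a)] at h3
    exact h3
  · subst ha
    refine ⟨a, -j, ?_, ?_, ?_⟩
    · rw [← h1]
      push_cast
      rw [ZMod.neg_eq_self_mod_two]
    · rw [← h2]
      push_cast
      rw [ZMod.neg_eq_self_mod_two]
    · rw [abs_neg, abs_of_nonneg (by positivity : (0 : ℤ) ≤ a)] at h3
      have : (k : ℤ) * a - -j * n = -((k : ℤ) * -(a : ℤ) - j * n) := by ring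
      rw [this, abs_neg]
      exact h3

end Pool.Agent.R47.GPArith
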