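import Mathlib

/-!
IR-graphs: definitions and a checker for small explicit graphs.
-/

namespace Pool.Agent.R47.IRPath

open Finset

section Defs

variable {V : Type} [DecidableEq V]

/-- The set of `D`-private neighbours of `v`. -/
def PN (G : SimpleGraph V) (v : V) (D : Finset V) : Set V :=
  {w | (w = v ∨ G.Adj v w) ∧ ∀ u ∈ D, u ≠ v → ¬ (w = u ∨ G.Adj u w)}

/-- `D` is irredundant. -/
def Irredundant (G : SimpleGraph V) (D : Finset V) : Prop :=
  ∀ v ∈ D, (PN G v D).Nonempty

/-- `D` is an irredundant set of maximum size. -/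
def IsIRSet (G : SimpleGraph V) (D : Finset V) : Prop :=
  Irredundant G D ∧ ∀ T : Finset V, Irredundant G T → T.card ≤ D.card

/-- One vertex `u` of `D` is exchanged for a neighbour `v`, which gives `D'`. -/
def Slides (G : SimpleGraph V) (D D' : Finset V) : Prop :=
  ∃ u ∈ D, ∃ v ∈ D', v ≠ u ∧ G.Adj u v ∧ D' = insert v (D.erase u)

/-- The slide relation between sets of the same size is symmetric. -/
lemma slides_symm (G : SimpleGraph V) (D D' : Finset V) (hc : D.card = D'.card)
    (h : Slides G D D') : Slides G D' D := by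
  obtain ⟨u, hu, v, hv, hvu, hadj, rfl⟩ := h
  have hvn : v ∉ D.erase u := by
    intro h3
    rw [Finset.insert_eq_of_mem h3, Finset.card_erase_of_mem hu] at hc
    have := Finset.card_pos.mpr ⟨u, hu⟩
    omega
  exact ⟨v, hv, u, hu, hvu.symm, hadj.symm, by
    rw [Finset.erase_insert hvn, Finset.insert_erase hu]⟩

lemma slides_irrefl (G : SimpleGraph V) (D : Finset V) : ¬ Slides G D D := by
  rintro ⟨u, hu, v, hv, hvu, _, h⟩
  rw [h] at hu
  rw [Finset.mem_insert] at hu
  rcases hu with hu | hu
  · exact hvu hu.symm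
  · exact absurd rfl (Finset.ne_of_mem_erase hu)

/-- The IR-graph of `G`. -/
def IRGraph (G : SimpleGraph V) : SimpleGraph {D : Finset V // IsIRSet G D} where
  Adj D D' := Slides G D.1 D'.1
  symm := ⟨fun D D' h => slides_symm G D.1 D'.1
    (le_antisymm (D'.2.2 _ D.2.1) (D.2.2 _ D'.2.1)) h⟩
  loopless := ⟨fun D h => slides_irrefl G D.1 h⟩

omit [DecidableEq V] in
lemma irr_subset (G : SimpleGraph V) (T U : Finset V) (hT : Irredundant G T) (hU : U ⊆ T) :
    Irredundant G U := by
  intro v hv
  obtain ⟨w, hw1, hw2⟩ := hT v (hU hv)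
  exact ⟨w, hw1, fun u hu => hw2 u (hU hu)⟩

end Defs

section Check

variable {m : ℕ}

/-- Union of closed neighbourhood masks over a list. -/
def uni (N : Fin m → ℕ) : List (Fin m) → ℕ
  | [] => 0
  | u :: l => N u ||| uni N l

/-- Union over the members different from `v`. -/
def uniEx (N : Fin m → ℕ) (v : Fin m) : List (Fin m) → ℕ
  | [] => 0
  | u :: l => if u = v then uniEx N v l else N u ||| uniEx N v l

lemma testBit_uniEx (N : Fin m → ℕ) (v : Fin m) (l : List (Fin m)) (w : ℕ) :
    (uniEx N v l).testBit w = true ↔ ∃ u ∈ l, u ≠ v ∧ (N u).testBit w = true := by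
  induction l with
  | nil => simp [uniEx]
  | cons a l ih =>
    unfold uniEx
    by_cases h : a = v
    · rw [if_pos h, ih]
      simp only [List.mem_cons, exists_eq_or_imp, h, ne_eq, not_true_eq_false, false_and,
        false_or]
    · rw [if_neg h, Nat.testBit_or, Bool.or_eq_true, ih]
      simp only [List.mem_cons, exists_eq_or_imp, h, ne_eq, not_false_eq_true, true_and]

/-- Boolean irredundance test. -/
def irrM (N : Fin m → ℕ) (l : List (Fin m)) : Bool :=
  l.all (fun v => (N v ||| uniEx N v l) != uniEx N v l)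

lemma or_ne_iff (a b m : ℕ) (ha : a < 2 ^ m) :
    (a ||| b) ≠ b ↔ ∃ w < m, a.testBit w = true ∧ b.testBit w = false := by
  constructor
  · intro h
    by_contra hcon
    push Not at hcon
    apply h
    apply Nat.eq_of_testBit_eq
    intro i
    rw [Nat.testBit_or]
    by_cases hi : i < m
    · have := hcon i hi
      cases ha' : a.testBit i
      · simp
      · have h2 := this ha'
        simp only [ne_eq, Bool.not_eq_false] at h2
        rw [h2]; rfl
    · have : a.testBit i = false := by
        apply Nat.testBit_lt_two_pow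
        exact lt_of_lt_of_le ha (Nat.pow_le_pow_right (by norm_num) (by omega))
      rw [this]; simp
  · rintro ⟨w, _, h1, h2⟩ h
    have := congrArg (fun x => x.testBit w) h
    simp only [Nat.testBit_or, h1, h2] at this
    exact absurd this (by decide)

lemma irrM_iff (N : Fin m → ℕ) (G : SimpleGraph (Fin m))
    (hN : ∀ v w, (N v).testBit w.val = true ↔ (w = v ∨ G.Adj v w))
    (hlt : ∀ v, N v < 2 ^ m) (l : List (Fin m)) :
    irrM N l = true ↔ Irredundant G l.toFinset := by
  unfold irrM Irredundant
  rw [List.all_eq_true]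
  apply forall_congr'
  intro v
  rw [List.mem_toFinset]
  apply imp_congr_right
  intro hv
  rw [bne_iff_ne, or_ne_iff _ _ m (hlt v)]
  constructor
  · rintro ⟨w, hw, h1, h2⟩
    refine ⟨⟨w, hw⟩, (hN v ⟨w, hw⟩).mp h1, fun u hu huv h3 => ?_⟩
    have : (uniEx N v l).testBit w = true := by
      rw [testBit_uniEx]
      exact ⟨u, List.mem_toFinset.mp hu, huv, (hN u ⟨w, hw⟩).mpr h3⟩
    rw [this] at h2
    exact absurd h2 (by decide)
  · rintro ⟨w, h1, h2⟩
    refine ⟨w.val, w.isLt, (hN v w).mpr h1, ?_⟩
    rw [← Bool.not_eq_true, testBit_uniEx]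
    rintro ⟨u, hu, huv, h3⟩
    exact h2 u (List.mem_toFinset.mpr hu) huv ((hN u w).mp h3)

/-- Sorted list of a set. -/
def slist (U : Finset (Fin m)) : List (Fin m) := (List.finRange m).filter (fun x => x ∈ U)

lemma slist_toFinset (U : Finset (Fin m)) : (slist U).toFinset = U := by
  ext x
  simp [slist]

lemma slist_length (U : Finset (Fin m)) : (slist U).length = U.card := by
  rw [← List.toFinset_card_of_nodup, slist_toFinset]
  exact (List.nodup_finRange m).filter _

lemma slist_mem (U : Finset (Fin m)) (c : ℕ) (h : U.card = c) :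
    slist U ∈ List.sublistsLen c (List.finRange m) := by
  rw [List.mem_sublistsLen]
  exact ⟨List.filter_sublist, by rw [slist_length, h]⟩

/-- Boolean slide test. -/
def slB (N : Fin m → ℕ) (l l' : List (Fin m)) : Prop :=
  ∃ u ∈ l, ∃ v ∈ l', v ≠ u ∧ (N u).testBit v.val = true ∧
    l'.toFinset = insert v (l.toFinset.erase u)

instance (N : Fin m → ℕ) (l l' : List (Fin m)) : Decidable (slB N l l') := by
  unfold slB; infer_instance

lemma slB_iff (N : Fin m → ℕ) (G : SimpleGraph (Fin m))
    (hN : ∀ v w, (N v).testBit w.val = true ↔ (w = v ∨ G.Adj v w)) (l l' : List (Fin m)) :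
    slB N l l' ↔ Slides G l.toFinset l'.toFinset := by
  unfold slB Slides
  constructor
  · rintro ⟨u, hu, v, hv, hvu, h1, h2⟩
    refine ⟨u, List.mem_toFinset.mpr hu, v, List.mem_toFinset.mpr hv, hvu, ?_, h2⟩
    rcases (hN u v).mp h1 with h3 | h3
    · exact absurd h3 hvu
    · exact h3
  · rintro ⟨u, hu, v, hv, hvu, h1, h2⟩
    exact ⟨u, List.mem_toFinset.mp hu, v, List.mem_toFinset.mp hv, hvu,
      (hN u v).mpr (Or.inr h1), h2⟩

/-- The checker: `sets` lists the IR-sets, and the target graph `P` is on `Fin k`. -/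
theorem check (N : Fin m → ℕ) (G : SimpleGraph (Fin m))
    (hN : ∀ v w, (N v).testBit w.val = true ↔ (w = v ∨ G.Adj v w))
    (hlt : ∀ v, N v < 2 ^ m) (c k : ℕ) (P : SimpleGraph (Fin k)) (hk : 0 < k)
    (sets : Fin k → List (Fin m))
    (h1 : ∀ l ∈ List.sublistsLen (c + 1) (List.finRange m), irrM N l = false)
    (h2 : ∀ l ∈ List.sublistsLen c (List.finRange m), irrM N l = true → ∃ i, sets i = l)
    (h3 : ∀ i, irrM N (sets i) = true ∧ sets i ∈ List.sublistsLen c (List.finRange m))
    (h4 : ∀ i j, sets i = sets j → i = j)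
    (h5 : ∀ i j, slB N (sets i) (sets j) ↔ P.Adj i j) :
    Nonempty (IRGraph G ≃g P) := by
  have hle : ∀ T : Finset (Fin m), Irredundant G T → T.card ≤ c := by
    intro T hT
    by_contra hcon
    push Not at hcon
    obtain ⟨U, hUT, hU⟩ := Finset.exists_subset_card_eq (n := c + 1) (s := T) (by omega)
    have hirr := irr_subset G T U hT hUT
    have h := h1 _ (slist_mem U _ hU)
    rw [← slist_toFinset U, ← irrM_iff N G hN hlt] at hirr
    rw [hirr] at h
    exact absurd h (by decide)
  have hnd : ∀ i, (sets i).Nodup := by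
    intro i
    have := (List.mem_sublistsLen.mp (h3 i).2).1
    exact this.nodup (List.nodup_finRange m)
  have hcard : ∀ i, (sets i).toFinset.card = c := by
    intro i
    rw [List.toFinset_card_of_nodup (hnd i)]
    exact (List.mem_sublistsLen.mp (h3 i).2).2
  have hirr : ∀ i, Irredundant G (sets i).toFinset := fun i =>
    (irrM_iff N G hN hlt _).mp (h3 i).1
  have hset : ∀ i, IsIRSet G (sets i).toFinset := fun i =>
    ⟨hirr i, fun T hT => by rw [hcard]; exact hle T hT⟩
  have hslist : ∀ i, slist (sets i).toFinset = sets i := by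
    intro i
    have hi : irrM N (slist (sets i).toFinset) = true := by
      rw [irrM_iff N G hN hlt, slist_toFinset]; exact hirr i
    have hs := (List.mem_sublistsLen.mp (h3 i).2).1
    have hs2 := (List.mem_sublistsLen.mp (slist_mem _ _ (hcard i))).1
    apply List.Sublist.eq_of_length _
      ((slist_length _).trans ((hcard i).trans (List.mem_sublistsLen.mp (h3 i).2).2.symm))
    have hsort : (sets i).Pairwise (· < ·) := by
      exact (List.pairwise_lt_finRange m).sublist hs
    have hsort2 : (slist (sets i).toFinset).Pairwise (· < ·) := by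
      exact (List.pairwise_lt_finRange m).sublist hs2
    have hperm : (slist (sets i).toFinset).Perm (sets i) := by
      rw [List.perm_ext_iff_of_nodup (hs2.nodup (List.nodup_finRange m)) (hnd i)]
      intro a
      rw [← List.mem_toFinset, slist_toFinset, List.mem_toFinset]
    rw [List.Perm.eq_of_pairwise (fun a b _ _ hab hba => absurd hba (lt_asymm hab))
      hsort2 hsort hperm]
  have hinj : ∀ i j, (sets i).toFinset = (sets j).toFinset → i = j := by
    intro i j h
    apply h4
    rw [← hslist i, ← hslist j, h]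
  let f : Fin k → {D : Finset (Fin m) // IsIRSet G D} := fun i => ⟨(sets i).toFinset, hset i⟩
  have hf : Function.Bijective f := by
    constructor
    · intro i j h
      exact hinj i j (congrArg Subtype.val h)
    · rintro ⟨U, hU⟩
      have hUc : U.card = c := by
        apply le_antisymm (hle U hU.1)
        rw [← hcard ⟨0, hk⟩]
        exact hU.2 _ (hirr _)
      have hirrU := hU.1
      rw [← slist_toFinset U, ← irrM_iff N G hN hlt] at hirrU
      obtain ⟨i, hi⟩ := h2 _ (slist_mem U _ hUc) hirrU
      refine ⟨i, Subtype.ext ?_⟩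
      show (sets i).toFinset = U
      rw [hi, slist_toFinset]
  refine ⟨RelIso.symm ⟨Equiv.ofBijective f hf, ?_⟩⟩
  intro i j
  show Slides G (sets i).toFinset (sets j).toFinset ↔ _
  rw [← slB_iff N G hN, h5]

end Check

end Pool.Agent.R47.IRPath
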