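import Pool.Agent.R47.IRPath

/-!
Long paths as IR-graphs.  The complement `H` of the graph is a modified circulant graph on
`ZMod (2M+1)`, with an optional extra vertex.
-/

namespace Pool.Agent.R47.IRPathGen

open Finset Pool.Agent.R47.IRPath

/-- Residues. -/
abbrev Z (M : ℕ) : Type := ZMod (2 * M + 1)

variable {M : ℕ}

/-- Cast of an integer. -/
def io (k : ℤ) : Z M := (k : Z M)

lemma io_add (a b : ℤ) : (io (a + b) : Z M) = io a + io b := by unfold io; push_cast; ring
lemma io_sub (a b : ℤ) : (io (a - b) : Z M) = io a - io b := by unfold io; push_cast; ring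
lemma io_zero : (io 0 : Z M) = 0 := by unfold io; simp

lemma io_inj {a b : ℤ} (h : (io a : Z M) = io b) (h1 : a - b ≤ 2 * M) (h2 : b - a ≤ 2 * M) :
    a = b := by
  have h3 : ((a - b : ℤ) : ZMod (2 * M + 1)) = 0 := by
    unfold io at h
    push_cast
    rw [h, sub_self]
  rw [ZMod.intCast_zmod_eq_zero_iff_dvd] at h3
  have h4 : |a - b| < ((2 * M + 1 : ℕ) : ℤ) := by
    rw [abs_lt]; push_cast; constructor <;> omega
  have := Int.eq_zero_of_abs_lt_dvd h3 h4
  omega

lemma io_half : (io (2 * M + 1) : Z M) = 0 := by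
  unfold io
  have h := ZMod.natCast_self (2 * M + 1)
  push_cast at h ⊢
  exact h

/-- Base neighbourhood. -/
def inB (j x : Z M) : Prop := ∃ t : ℤ, (t = -2 ∨ t = 0 ∨ t = 1 ∨ t = 3) ∧ x = j + io t

/-- Removed incidences. -/
def R (j x : Z M) : Prop :=
  (j = io 2 ∧ x = io 0) ∨ (j = io 0 ∧ x = io 3) ∨ (j = io M ∧ x = io (M + 3)) ∨
    (j = io (M + 3) ∧ x = io (M + 1))

/-- Adjacency in the complement between ordinary vertices. -/
def nb (w x : Z M) : Prop := inB (w + io M) x ∧ ¬ R (w + io M) x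

lemma inB_symm (w x : Z M) (h : inB (w + io M) x) : inB (x + io M) w := by
  obtain ⟨t, ht, rfl⟩ := h
  refine ⟨1 - t, by omega, ?_⟩
  have h1 : (io (2 * M + 1) : Z M) = 0 := io_half
  have h2 : w + io M + io t + io M + io (1 - t) = w + io (2 * M + 1) := by
    unfold io; push_cast; ring
  rw [h2, h1, add_zero]

lemma R_symm (w x : Z M) (h : R (w + io M) x) : R (x + io M) w := by
  have h1 : (io (2 * M + 1) : Z M) = 0 := io_half
  unfold R at *
  rcases h with ⟨h2, h3⟩ | ⟨h2, h3⟩ | ⟨h2, h3⟩ | ⟨h2, h3⟩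
  · -- w = io (M+3), x = 0
    right; right; left
    refine ⟨by rw [h3, io_zero, zero_add], ?_⟩
    have : w = io 2 - io M + io (2 * M + 1) := by rw [← h2, h1]; ring
    rw [this]; unfold io; push_cast; ring
  · -- w = io (M+1), x = 3
    right; right; right
    refine ⟨by rw [h3]; unfold io; push_cast; ring, ?_⟩
    have : w = io 0 - io M + io (2 * M + 1) := by rw [← h2, h1]; ring
    rw [this]; unfold io; push_cast; ring
  · -- w = 0, x = M + 3
    left
    constructor
    · have : x + io M = io 2 + io (2 * M + 1) := by rw [h3]; unfold io; push_cast; ring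
      rw [this, h1, add_zero]
    · have h5 : w + io M = 0 + io M := by rw [zero_add]; exact h2
      rw [add_right_cancel h5, io_zero]
  · -- w = 3, x = M + 1
    right; left
    constructor
    · have : x + io M = io 0 + io (2 * M + 1) := by rw [h3]; unfold io; push_cast; ring
      rw [this, h1, add_zero]
    · have : w = io (M + 3) - io M := by rw [← h2]; ring
      rw [this]; unfold io; push_cast; ring

lemma nb_symm (w x : Z M) (h : nb w x) : nb x w :=
  ⟨inB_symm w x h.1, fun h2 => h.2 (R_symm x w h2)⟩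

lemma nb_irrefl (hM : 8 ≤ M) (w : Z M) : ¬ nb w w := by
  rintro ⟨⟨t, ht, h⟩, _⟩
  have h1 : (io (M + t) : Z M) = io 0 := by
    rw [io_add, io_zero]
    have : w + (io M + io t) = w + 0 := by rw [add_zero, ← add_assoc]; exact h.symm
    exact add_left_cancel this
  have := io_inj h1 (by omega) (by omega)
  omega

/-- Adjacency in the complement, with the optional vertex `none`. -/
def nbO (β : Prop) : Option (Z M) → Option (Z M) → Prop
  | some w, some x => nb w x
  | none, some x => β ∧ (x = io 0 ∨ x = io 2)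
  | some w, none => β ∧ (w = io 0 ∨ w = io 2)
  | none, none => False

lemma nbO_symm (β : Prop) (u v : Option (Z M)) (h : nbO β u v) : nbO β v u := by
  rcases u with _ | u <;> rcases v with _ | v
  · exact h
  · exact h
  · exact h
  · exact nb_symm _ _ h

lemma nbO_irrefl (hM : 8 ≤ M) (β : Prop) (u : Option (Z M)) : ¬ nbO β u u := by
  rcases u with _ | u
  · exact id
  · exact nb_irrefl hM u

/-- The graph. -/
def G (M : ℕ) (β : Prop) : SimpleGraph (Option (Z M)) where
  Adj u v := u ≠ v ∧ ¬ nbO β u v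
  symm := ⟨fun u v h => ⟨h.1.symm, fun h2 => h.2 (nbO_symm β v u h2)⟩⟩
  loopless := ⟨fun u h => h.1 rfl⟩

lemma irr_iff (hM : 8 ≤ M) (β : Prop) (D : Finset (Option (Z M))) :
    Irredundant (G M β) D ↔
      ∀ a ∈ D, ∃ w, ¬ nbO β w a ∧ ∀ u ∈ D, u ≠ a → nbO β w u := by
  unfold Irredundant
  apply forall_congr'
  intro a
  apply imp_congr_right
  intro ha
  unfold PN
  constructor
  · rintro ⟨w, hw1, hw2⟩
    refine ⟨w, ?_, fun u hu hua => ?_⟩
    · rcases hw1 with rfl | hw1
      · exact nbO_irrefl hM β _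
      · exact fun h => hw1.2 (nbO_symm β _ _ h)
    · have := hw2 u hu hua
      by_contra h
      apply this
      by_cases hwu : w = u
      · exact Or.inl hwu
      · exact Or.inr ⟨Ne.symm hwu, fun h2 => h (nbO_symm β _ _ h2)⟩
  · rintro ⟨w, hw1, hw2⟩
    refine ⟨w, ?_, fun u hu hua h => ?_⟩
    · by_cases hwa : w = a
      · exact Or.inl hwa
      · exact Or.inr ⟨Ne.symm hwa, fun h => hw1 (nbO_symm β _ _ h)⟩
    · have h2 := hw2 u hu hua
      rcases h with rfl | h
      · exact nbO_irrefl hM β _ h2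
      · exact h.2 (nbO_symm β _ _ h2)

/-- The pair `x, y` is a trace which avoids `z`. -/
def Tr (x y z : Z M) : Prop :=
  ∃ j, (inB j x ∧ ¬ R j x) ∧ (inB j y ∧ ¬ R j y) ∧ ¬ (inB j z ∧ ¬ R j z)

/-- The pair is covered by the optional vertex. -/
def Tz (β : Prop) (x y : Z M) : Prop :=
  β ∧ ((x = io 0 ∧ y = io 2) ∨ (x = io 2 ∧ y = io 0))

/-- Allowed differences. -/
def dl (d : ℤ) : Prop :=
  d = 1 ∨ d = -1 ∨ d = 2 ∨ d = -2 ∨ d = 3 ∨ d = -3 ∨ d = 5 ∨ d = -5

lemma Tr_dl {x y z : Z M} (h : Tr x y z) (hxy : x ≠ y) :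
    ∃ d : ℤ, dl d ∧ y = x + io d := by
  obtain ⟨j, ⟨⟨t, ht, rfl⟩, _⟩, ⟨⟨s, hs, rfl⟩, _⟩, _⟩ := h
  have hts : t ≠ s := fun h => hxy (by rw [h])
  refine ⟨s - t, by unfold dl; omega, ?_⟩
  rw [io_sub]; ring

lemma Tz_dl {β : Prop} {x y : Z M} (h : Tz β x y) : ∃ d : ℤ, dl d ∧ y = x + io d := by
  rcases h.2 with ⟨h1, h2⟩ | ⟨h1, h2⟩
  · exact ⟨2, by unfold dl; omega, by rw [h1, h2, io_zero, zero_add]⟩
  · refine ⟨-2, by unfold dl; omega, ?_⟩
    rw [h1, h2, ← io_add]; rfl

/-- A trace pair with known difference. -/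
lemma Tr_pos {x y z : Z M} (hM : 8 ≤ M) (h : Tr x y z) (d : ℤ) (hd : dl d)
    (hy : y = x + io d) :
    ∃ t s : ℤ, (t = -2 ∨ t = 0 ∨ t = 1 ∨ t = 3) ∧ (s = -2 ∨ s = 0 ∨ s = 1 ∨ s = 3) ∧
      s - t = d ∧ ¬ R (x - io t) x ∧ ¬ R (x - io t) y ∧
      ¬ (inB (x - io t) z ∧ ¬ R (x - io t) z) := by
  obtain ⟨j, ⟨⟨t, ht, hx⟩, hr1⟩, ⟨⟨s, hs, hy2⟩, hr2⟩, h3⟩ := h
  have hj : j = x - io t := by rw [hx]; ring
  have h4 : (io (s - t) : Z M) = io d := by
    rw [io_sub]
    have : j + io s = j + io t + io d := by rw [← hy2, ← hx, hy]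
    have h5 : io s = io t + (io d : Z M) := by
      have h6 : j + io s = j + (io t + io d) := by rw [this]; ring
      exact add_left_cancel h6
    rw [h5]; ring
  unfold dl at hd
  have := io_inj h4 (by omega) (by omega)
  rw [hj] at hr1 hr2 h3
  exact ⟨t, s, ht, hs, this, hr1, hr2, h3⟩

lemma not_Tr_zero_three (hM : 8 ≤ M) (z : Z M) : ¬ Tr (io 0) (io 3) z := by
  intro h
  obtain ⟨t, s, ht, hs, hts, hr1, hr2, _⟩ := Tr_pos hM h 3 (by unfold dl; omega)
    (by rw [← io_add]; rfl)
  have : t = -2 ∨ t = 0 := by omega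
  rcases this with rfl | rfl
  · exact hr1 (Or.inl ⟨by rw [← io_sub]; rfl, rfl⟩)
  · exact hr2 (Or.inr (Or.inl ⟨by rw [← io_sub]; rfl, rfl⟩))

lemma not_Tr_mid (hM : 8 ≤ M) (z : Z M) : ¬ Tr (io (M + 1)) (io (M + 3)) z := by
  intro h
  obtain ⟨t, s, ht, hs, hts, hr1, hr2, _⟩ := Tr_pos hM h 2 (by unfold dl; omega)
    (by rw [← io_add]; congr 1)
  have : t = -2 ∨ t = 1 := by omega
  rcases this with rfl | rfl
  · refine hr1 (Or.inr (Or.inr (Or.inr ⟨?_, rfl⟩)))
    rw [← io_sub]; congr 1
  · refine hr2 (Or.inr (Or.inr (Or.inl ⟨?_, rfl⟩)))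
    rw [← io_sub]; congr 1; ring

/-- `R` only holds for differences `-2` and `3`. -/
lemma R_diff (hM : 8 ≤ M) {j x : Z M} (h : R j x) :
    (x = j + io (-2) ∧ (x = io 0 ∨ x = io (M + 1))) ∨
      (x = j + io 3 ∧ (j = io 0 ∨ j = io M)) := by
  rcases h with ⟨h1, h2⟩ | ⟨h1, h2⟩ | ⟨h1, h2⟩ | ⟨h1, h2⟩
  · left; exact ⟨by rw [h1, h2, ← io_add]; rfl, Or.inl h2⟩
  · right; exact ⟨by rw [h1, h2, ← io_add]; rfl, Or.inl h1⟩
  · right; exact ⟨by rw [h1, h2, ← io_add], Or.inr h1⟩
  · left; exact ⟨by rw [h1, h2, ← io_add]; congr 1; ring, Or.inr h2⟩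

lemma add_io_inj {x : Z M} {a b : ℤ} (h : x + io a = x + io b) (h1 : a - b ≤ 2 * M)
    (h2 : b - a ≤ 2 * M) : a = b := io_inj (add_left_cancel h) h1 h2

/-- Pair `x, x+1` with third `x+3`. -/
lemma case12 (hM : 8 ≤ M) (β : Prop) (x : Z M)
    (h1 : Tr x (x + io 1) (x + io 3) ∨ Tz β x (x + io 1))
    (h2 : Tr x (x + io 3) (x + io 1) ∨ Tz β x (x + io 3))
    (h3 : Tr (x + io 1) (x + io 3) x ∨ Tz β (x + io 1) (x + io 3)) : False := by
  have hz1 : ¬ Tz β x (x + io 1) := by
    rintro ⟨_, ⟨h4, h5⟩ | ⟨h4, h5⟩⟩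
    · rw [h4, ← io_add] at h5
      have := io_inj h5 (by omega) (by omega); omega
    · rw [h4, ← io_add] at h5
      have := io_inj h5 (by omega) (by omega); omega
  have hx : x = io 0 ∨ x = io M := by
    rcases h1 with h1 | h1
    · obtain ⟨t, s, ht, hs, hts, hr1, hr2, h4⟩ := Tr_pos hM h1 1 (by unfold dl; omega) rfl
      have ht0 : t = 0 := by omega
      subst ht0
      rw [io_zero, sub_zero] at h4
      have h5 : R x (x + io 3) := by
        by_contra h6
        exact h4 ⟨⟨3, by omega, rfl⟩, h6⟩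
      rcases R_diff hM h5 with ⟨h6, _⟩ | ⟨_, h6⟩
      · have := add_io_inj h6 (by omega) (by omega); omega
      · exact h6
    · exact absurd h1 hz1
  rcases hx with rfl | rfl
  · rcases h2 with h2 | ⟨_, ⟨_, h5⟩ | ⟨h4, _⟩⟩
    · rw [← io_add, ← io_add] at h2
      exact not_Tr_zero_three hM _ h2
    · rw [← io_add] at h5
      have := io_inj h5 (by omega) (by omega); omega
    · have := io_inj h4 (by omega) (by omega); omega
  · rcases h3 with h3 | ⟨_, ⟨h4, _⟩ | ⟨h4, _⟩⟩
    · rw [← io_add, ← io_add] at h3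
      exact not_Tr_mid hM _ h3
    · rw [← io_add] at h4
      have := io_inj h4 (by omega) (by omega); omega
    · rw [← io_add] at h4
      have := io_inj h4 (by omega) (by omega); omega

/-- Pair `x+2, x+3` with third `x`. -/
lemma case21 (hM : 8 ≤ M) (β : Prop) (x : Z M)
    (h1 : Tr (x + io 2) (x + io 3) x ∨ Tz β (x + io 2) (x + io 3))
    (h2 : Tr x (x + io 3) (x + io 2) ∨ Tz β x (x + io 3))
    (h3 : Tr x (x + io 2) (x + io 3) ∨ Tz β x (x + io 2)) : False := by
  have hz1 : ¬ Tz β (x + io 2) (x + io 3) := by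
    rintro ⟨_, ⟨h4, h5⟩ | ⟨h4, h5⟩⟩
    · have h6 : x + io 2 + io 1 = x + io 3 := by rw [add_assoc, ← io_add]; rfl
      rw [h4, h5, ← io_add] at h6
      have := io_inj h6 (by omega) (by omega); omega
    · have h6 : x + io 2 + io 1 = x + io 3 := by rw [add_assoc, ← io_add]; rfl
      rw [h4, h5, ← io_add] at h6
      have := io_inj h6 (by omega) (by omega); omega
  have hx : x = io 0 ∨ x = io (M + 1) := by
    rcases h1 with h1 | h1
    · obtain ⟨t, s, ht, hs, hts, hr1, hr2, h4⟩ := Tr_pos hM h1 1 (by unfold dl; omega)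
        (by rw [add_assoc, ← io_add]; rfl)
      have ht0 : t = 0 := by omega
      subst ht0
      rw [io_zero, sub_zero] at h4
      have h5 : R (x + io 2) x := by
        by_contra h6
        refine h4 ⟨⟨-2, by omega, ?_⟩, h6⟩
        rw [add_assoc, ← io_add]
        show x = x + io 0
        rw [io_zero, add_zero]
      rcases R_diff hM h5 with ⟨_, h6⟩ | ⟨h6, _⟩
      · exact h6
      · rw [add_assoc, ← io_add] at h6
        have h7 : x + io 0 = x + io (2 + 3) := by rw [← h6, io_zero, add_zero]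
        have := add_io_inj h7 (by omega) (by omega); omega
    · exact absurd h1 hz1
  rcases hx with rfl | rfl
  · rcases h2 with h2 | ⟨_, ⟨_, h5⟩ | ⟨h4, _⟩⟩
    · rw [← io_add, ← io_add] at h2
      exact not_Tr_zero_three hM _ h2
    · rw [← io_add] at h5
      have := io_inj h5 (by omega) (by omega); omega
    · have := io_inj h4 (by omega) (by omega); omega
  · rcases h3 with h3 | ⟨_, ⟨h4, _⟩ | ⟨h4, _⟩⟩
    · have h8 : (io (M + 1) : Z M) + io 2 = io (M + 3) := by rw [← io_add]; congr 1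
      rw [h8] at h3
      exact not_Tr_mid hM _ h3
    · have := io_inj h4 (by omega) (by omega); omega
    · have := io_inj h4 (by omega) (by omega); omega

/-- The pair `x, x+5` never avoids `x+2` or `x+3`. -/
lemma case5 (hM : 8 ≤ M) (β : Prop) (x : Z M) (d : ℤ) (hd : d = 2 ∨ d = 3)
    (h1 : Tr x (x + io 5) (x + io d) ∨ Tz β x (x + io 5)) : False := by
  rcases h1 with h1 | ⟨_, ⟨h4, h5⟩ | ⟨h4, h5⟩⟩
  · obtain ⟨t, s, ht, hs, hts, hr1, hr2, h4⟩ := Tr_pos hM h1 5 (by unfold dl; omega) rfl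
    have ht0 : t = -2 := by omega
    subst ht0
    apply h4
    have hx : x + io d = x - io (-2) + io (d - 2) := by
      have : (io d : Z M) = io (-(-2) + (d - 2)) := by congr 1; ring
      rw [this]; unfold io; push_cast; ring
    refine ⟨⟨d - 2, by omega, hx⟩, fun h5 => ?_⟩
    rcases R_diff hM h5 with ⟨h6, _⟩ | ⟨h6, _⟩
    · rw [hx] at h6
      have := add_io_inj h6 (by omega) (by omega); omega
    · rw [hx] at h6
      have := add_io_inj h6 (by omega) (by omega); omega
  · rw [h4, ← io_add] at h5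
    have := io_inj h5 (by omega) (by omega); omega
  · rw [h4, ← io_add] at h5
    have := io_inj h5 (by omega) (by omega); omega

/-- The killed consecutive triple. -/
lemma case11 (hM : 8 ≤ M) (β : Prop) (x : Z M)
    (h1 : Tr x (x + io 2) (x + io 1) ∨ Tz β x (x + io 2)) : x ≠ io (M + 1) := by
  rintro rfl
  rcases h1 with h1 | ⟨_, ⟨h4, h5⟩ | ⟨h4, h5⟩⟩
  · have h8 : (io (M + 1) : Z M) + io 2 = io (M + 3) := by rw [← io_add]; congr 1
    rw [h8] at h1
    exact not_Tr_mid hM _ h1
  · have := io_inj h4 (by omega) (by omega); omega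
  · have := io_inj h4 (by omega) (by omega); omega

lemma Tr_swap {x y z : Z M} (h : Tr x y z) : Tr y x z := by
  obtain ⟨j, h1, h2, h3⟩ := h
  exact ⟨j, h2, h1, h3⟩

lemma Tz_swap {β : Prop} {x y : Z M} (h : Tz β x y) : Tz β y x := by
  obtain ⟨h0, h1 | h1⟩ := h
  · exact ⟨h0, Or.inr ⟨h1.2, h1.1⟩⟩
  · exact ⟨h0, Or.inl ⟨h1.2, h1.1⟩⟩

/-- The trace condition for a triple of ordinary vertices. -/
def Tri (β : Prop) (x y z : Z M) : Prop :=
  (Tr x y z ∨ Tz β x y) ∧ (Tr x z y ∨ Tz β x z) ∧ (Tr y z x ∨ Tz β y z)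

lemma Tri_swap12 {β : Prop} {x y z : Z M} (h : Tri β x y z) : Tri β y x z :=
  ⟨h.1.imp Tr_swap Tz_swap, h.2.2, h.2.1⟩

lemma Tri_swap23 {β : Prop} {x y z : Z M} (h : Tri β x y z) : Tri β x z y :=
  ⟨h.2.1, h.1, h.2.2.imp Tr_swap Tz_swap⟩

/-- Sorted version of the classification. -/
lemma sorted_case (hM : 8 ≤ M) (β : Prop) (x : Z M) (p q : ℤ)
    (hpq : (p = 1 ∧ q = 2) ∨ (p = 1 ∧ q = 3) ∨ (p = 2 ∧ q = 3) ∨ (p = 2 ∧ q = 5) ∨
      (p = 3 ∧ q = 5))
    (h : Tri β x (x + io p) (x + io q)) :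
    p = 1 ∧ q = 2 ∧ x ≠ io (M + 1) := by
  obtain ⟨h1, h2, h3⟩ := h
  rcases hpq with ⟨rfl, rfl⟩ | ⟨rfl, rfl⟩ | ⟨rfl, rfl⟩ | ⟨rfl, rfl⟩ | ⟨rfl, rfl⟩
  · exact ⟨rfl, rfl, case11 hM β x h2⟩
  · exact (case12 hM β x h1 h2 h3).elim
  · exact (case21 hM β x h3 h2 h1).elim
  · exact (case5 hM β x 2 (Or.inl rfl) h2).elim
  · exact (case5 hM β x 3 (Or.inr rfl) h2).elim

/-- Allowed sorted difference patterns. -/
def patt (p q : ℤ) : Prop :=
  (p = 1 ∧ q = 2) ∨ (p = 1 ∧ q = 3) ∨ (p = 2 ∧ q = 3) ∨ (p = 2 ∧ q = 5) ∨ (p = 3 ∧ q = 5)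

instance (p q : ℤ) : Decidable (patt p q) := by unfold patt; infer_instance

instance (d : ℤ) : Decidable (dl d) := by unfold dl; infer_instance

lemma sortL : ∀ d ∈ [(1 : ℤ), -1, 2, -2, 3, -3, 5, -5], ∀ e ∈ [(1 : ℤ), -1, 2, -2, 3, -3, 5, -5],
    dl (e - d) → patt d e ∨ patt e d ∨ patt (-d) (e - d) ∨ patt (-e) (d - e) ∨
      patt (e - d) (-d) ∨ patt (d - e) (-e) := by decide

lemma dl_mem {d : ℤ} (h : dl d) : d ∈ [(1 : ℤ), -1, 2, -2, 3, -3, 5, -5] := by
  unfold dl at h
  simp only [List.mem_cons, List.not_mem_nil, or_false]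
  exact h

/-- A triple of ordinary vertices with the trace condition is consecutive. -/
lemma classify (hM : 8 ≤ M) (β : Prop) (a b c : Z M) (hab : a ≠ b) (hac : a ≠ c) (hbc : b ≠ c)
    (h : Tri β a b c) :
    ∃ x : Z M, x ≠ io (M + 1) ∧
      ({a, b, c} : Finset (Z M)) = {x, x + io 1, x + io 2} := by
  obtain ⟨d, hd, hb⟩ : ∃ d : ℤ, dl d ∧ b = a + io d := by
    rcases h.1 with h1 | h1
    · exact Tr_dl h1 hab
    · exact Tz_dl h1
  obtain ⟨e, he, hc⟩ : ∃ d : ℤ, dl d ∧ c = a + io d := by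
    rcases h.2.1 with h1 | h1
    · exact Tr_dl h1 hac
    · exact Tz_dl h1
  obtain ⟨f, hf, hcb⟩ : ∃ d : ℤ, dl d ∧ c = b + io d := by
    rcases h.2.2 with h1 | h1
    · exact Tr_dl h1 hbc
    · exact Tz_dl h1
  have hef : e = d + f := by
    have h1 : a + io e = a + io (d + f) := by
      rw [io_add, ← add_assoc, ← hb, ← hcb, ← hc]
    unfold dl at hd he hf
    exact add_io_inj h1 (by omega) (by omega)
  subst hb
  subst hc
  -- sort the triple
  have key : ∀ (x : Z M) (p q : ℤ), Tri β x (x + io p) (x + io q) →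
      patt p q →
      ∃ y : Z M, y ≠ io (M + 1) ∧
      ({x, x + io p, x + io q} : Finset (Z M)) = {y, y + io 1, y + io 2} := by
    intro x p q hT hpq
    obtain ⟨rfl, rfl, hx⟩ := sorted_case hM β x p q hpq hT
    exact ⟨x, hx, rfl⟩
  have hsort := sortL d (dl_mem hd) e (dl_mem he) (by
    have : e - d = f := by omega
    rw [this]; exact hf)
  have e1 : ∀ x : Z M, ∀ k : ℤ, x + io k + io (-k) = x := by
    intro x k; unfold io; push_cast; ring
  have e2 : ∀ x : Z M, ∀ k l : ℤ, x + io k + io (l - k) = x + io l := by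
    intro x k l; unfold io; push_cast; ring
  have s12 : ∀ x y z : Z M, ({x, y, z} : Finset (Z M)) = {y, x, z} := fun x y z =>
    Finset.insert_comm x y {z}
  have s23 : ∀ x y z : Z M, ({x, y, z} : Finset (Z M)) = {x, z, y} := fun x y z => by
    rw [Finset.pair_comm y z]
  rcases hsort with h1 | h1 | h1 | h1 | h1 | h1
  · exact key a d e h h1
  · obtain ⟨y, hy, hs⟩ := key a e d (Tri_swap23 h) h1
    exact ⟨y, hy, (s23 _ _ _).trans hs⟩
  · -- order b, a, c
    have hT : Tri β (a + io d) (a + io d + io (-d)) (a + io d + io (e - d)) := by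
      rw [e1 a d, e2 a d e]; exact Tri_swap12 h
    obtain ⟨y, hy, hs⟩ := key (a + io d) (-d) (e - d) hT h1
    rw [e1 a d, e2 a d e] at hs
    exact ⟨y, hy, (s12 _ _ _).trans hs⟩
  · -- order c, a, b
    have hT : Tri β (a + io e) (a + io e + io (-e)) (a + io e + io (d - e)) := by
      rw [e1 a e, e2 a e d]; exact Tri_swap12 (Tri_swap23 h)
    obtain ⟨y, hy, hs⟩ := key (a + io e) (-e) (d - e) hT h1
    rw [e1 a e, e2 a e d] at hs
    exact ⟨y, hy, (s23 _ _ _).trans ((s12 _ _ _).trans hs)⟩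
  · -- order b, c, a
    have hT : Tri β (a + io d) (a + io d + io (e - d)) (a + io d + io (-d)) := by
      rw [e1 a d, e2 a d e]; exact Tri_swap23 (Tri_swap12 h)
    obtain ⟨y, hy, hs⟩ := key (a + io d) (e - d) (-d) hT h1
    rw [e1 a d, e2 a d e] at hs
    exact ⟨y, hy, (s12 _ _ _).trans ((s23 _ _ _).trans hs)⟩
  · -- order c, b, a
    have hT : Tri β (a + io e) (a + io e + io (d - e)) (a + io e + io (-e)) := by
      rw [e1 a e, e2 a e d]; exact Tri_swap23 (Tri_swap12 (Tri_swap23 h))
    obtain ⟨y, hy, hs⟩ := key (a + io e) (d - e) (-e) hT h1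
    rw [e1 a e, e2 a e d] at hs
    exact ⟨y, hy, (s23 _ _ _).trans ((s12 _ _ _).trans ((s23 _ _ _).trans hs))⟩

lemma irr_tri (hM : 8 ≤ M) (β : Prop) (a b c : Z M) (hab : a ≠ b) (hac : a ≠ c) (hbc : b ≠ c)
    (D : Finset (Option (Z M))) (hD : Irredundant (G M β) D)
    (ha : some a ∈ D) (hb : some b ∈ D) (hc : some c ∈ D) : Tri β a b c := by
  rw [irr_iff hM] at hD
  have gen : ∀ x y z : Z M, x ≠ y → some x ∈ D → some y ∈ D → some z ∈ D → x ≠ z → y ≠ z →
      (Tr x y z ∨ Tz β x y) := by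
    intro x y z hxy hx hy hz hxz hyz
    obtain ⟨w, hw1, hw2⟩ := hD (some z) hz
    have h1 := hw2 (some x) hx (fun h => hxz (Option.some.inj h))
    have h2 := hw2 (some y) hy (fun h => hyz (Option.some.inj h))
    rcases w with _ | w
    · right
      refine ⟨h1.1, ?_⟩
      rcases h1.2 with h3 | h3 <;> rcases h2.2 with h4 | h4
      · exact absurd (h3.trans h4.symm) hxy
      · exact Or.inl ⟨h3, h4⟩
      · exact Or.inr ⟨h3, h4⟩
      · exact absurd (h3.trans h4.symm) hxy
    · left
      exact ⟨w + io M, h1, h2, hw1⟩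
  exact ⟨gen a b c hab ha hb hc hac hbc, gen a c b hac ha hc hb hab hbc.symm,
    gen b c a hbc hb hc ha hab.symm hac.symm⟩

lemma nb_sub (j y : Z M) : nb (j - io M) y ↔ (inB j y ∧ ¬ R j y) := by
  unfold nb
  rw [sub_add_cancel]

lemma not_R_of (hM : 8 ≤ M) (j : Z M) (k : ℤ) (h1 : k ≠ -2) (h2 : k ≠ 3)
    (h3 : -7 ≤ k) (h4 : k ≤ 8) : ¬ R j (j + io k) := by
  intro h
  rcases R_diff hM h with ⟨h5, _⟩ | ⟨h5, _⟩
  · exact h1 (add_io_inj h5 (by omega) (by omega))
  · exact h2 (add_io_inj h5 (by omega) (by omega))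

lemma inB_iff (hM : 8 ≤ M) (j : Z M) (k : ℤ) (h3 : -7 ≤ k) (h4 : k ≤ 8) :
    inB j (j + io k) ↔ (k = -2 ∨ k = 0 ∨ k = 1 ∨ k = 3) := by
  constructor
  · rintro ⟨t, ht, h⟩
    have := add_io_inj h (by omega) (by omega)
    omega
  · intro h
    exact ⟨k, h, rfl⟩

/-- The consecutive triple. -/
def Ds (x : Z M) : Finset (Option (Z M)) := {some x, some (x + io 1), some (x + io 2)}

/-- The extra triple. -/
def Es (M : ℕ) : Finset (Option (Z M)) := {none, some (io (M + 1)), some (io (M + 2))}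

lemma mem_Ds (x : Z M) (u : Option (Z M)) :
    u ∈ Ds x ↔ (u = some x ∨ u = some (x + io 1) ∨ u = some (x + io 2)) := by
  unfold Ds; simp only [mem_insert, mem_singleton]

lemma mem_Es (u : Option (Z M)) :
    u ∈ Es M ↔ (u = none ∨ u = some (io (M + 1)) ∨ u = some (io (M + 2))) := by
  unfold Es; simp only [mem_insert, mem_singleton]

lemma shift0 (x : Z M) : x + io 0 = x := by rw [io_zero, add_zero]

lemma Ds_irr (hM : 8 ≤ M) (β : Prop) (x : Z M) (hx : x ≠ io (M + 1)) :
    Irredundant (G M β) (Ds x) := by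
  rw [irr_iff hM]
  intro a ha
  rw [mem_Ds] at ha
  rcases ha with rfl | rfl | rfl
  · -- remove x
    refine ⟨some (x + io 1 - io M), ?_, ?_⟩
    · show ¬ nb _ _
      rw [nb_sub]
      rintro ⟨h1, _⟩
      have h2 : x = x + io 1 + io (-1) := by unfold io; push_cast; ring
      rw [h2, add_assoc x (io 1) (io (-1)), ← io_add, show (1 : ℤ) + -1 = 0 from rfl, shift0] at h1
      rw [h2] at h1
      have h3 : inB (x + io 1) (x + io 1 + io (-1)) := by
        have h4 : x + io 1 + io (-1) + io 1 = x + io 1 := by unfold io; push_cast; ring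
        rw [← h2] at h1
        rw [← h2]
        exact h1
      rw [inB_iff hM _ _ (by omega) (by omega)] at h3
      omega
    · intro u hu hne
      rw [mem_Ds] at hu
      rcases hu with rfl | rfl | rfl
      · exact absurd rfl hne
      · show nb _ _
        rw [nb_sub]
        have h2 : x + io 1 = x + io 1 + io 0 := (shift0 _).symm
        constructor
        · exact ⟨0, by omega, h2⟩
        · intro h3
          rcases R_diff hM h3 with ⟨h5, _⟩ | ⟨h5, _⟩
          · rw [add_assoc, ← io_add] at h5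
            have := add_io_inj h5 (by omega) (by omega); omega
          · rw [add_assoc, ← io_add] at h5
            have := add_io_inj h5 (by omega) (by omega); omega
      · show nb _ _
        rw [nb_sub]
        have h2 : x + io 2 = x + io 1 + io 1 := by rw [add_assoc, ← io_add]; rfl
        constructor
        · exact ⟨1, by omega, h2⟩
        · intro h3
          rcases R_diff hM h3 with ⟨h5, _⟩ | ⟨h5, _⟩
          · rw [add_assoc, ← io_add] at h5
            have := add_io_inj h5 (by omega) (by omega); omega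
          · rw [add_assoc, ← io_add] at h5
            have := add_io_inj h5 (by omega) (by omega); omega
  · -- remove x + 1
    by_cases hx0 : x = io 0
    · -- use j = x - 1
      refine ⟨some (x + io (-1) - io M), ?_, ?_⟩
      · show ¬ nb _ _
        rw [nb_sub]
        rintro ⟨⟨t, ht, h2⟩, _⟩
        rw [add_assoc, ← io_add] at h2
        have := add_io_inj h2 (by omega) (by omega); omega
      · have hno : ∀ y, ¬ R (x + io (-1)) y := by
          intro y h3
          rw [hx0, ← io_add] at h3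
          rcases h3 with ⟨h5, _⟩ | ⟨h5, _⟩ | ⟨h5, _⟩ | ⟨h5, _⟩
          · have := io_inj h5 (by omega) (by omega); omega
          · have := io_inj h5 (by omega) (by omega); omega
          · have := io_inj h5 (by omega) (by omega); omega
          · have := io_inj h5 (by omega) (by omega); omega
        intro u hu hne
        rw [mem_Ds] at hu
        rcases hu with rfl | rfl | rfl
        · show nb _ _
          rw [nb_sub]
          refine ⟨⟨1, by omega, ?_⟩, hno _⟩
          rw [add_assoc, ← io_add]; exact (shift0 x).symm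
        · exact absurd rfl hne
        · show nb _ _
          rw [nb_sub]
          refine ⟨⟨3, by omega, ?_⟩, hno _⟩
          rw [add_assoc, ← io_add]; rfl
    · -- use j = x + 2
      refine ⟨some (x + io 2 - io M), ?_, ?_⟩
      · show ¬ nb _ _
        rw [nb_sub]
        rintro ⟨⟨t, ht, h2⟩, _⟩
        rw [add_assoc, ← io_add] at h2
        have := add_io_inj h2 (by omega) (by omega); omega
      · intro u hu hne
        rw [mem_Ds] at hu
        rcases hu with rfl | rfl | rfl
        · show nb _ _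
          rw [nb_sub]
          refine ⟨⟨-2, by omega, ?_⟩, ?_⟩
          · rw [add_assoc, ← io_add]; exact (shift0 x).symm
          · intro h3
            rcases R_diff hM h3 with ⟨_, h5 | h5⟩ | ⟨h5, _⟩
            · exact hx0 h5
            · exact hx h5
            · rw [add_assoc, ← io_add] at h5
              have h6 : x + io 0 = x + io (2 + 3) := by rw [shift0]; exact h5
              have := add_io_inj h6 (by omega) (by omega); omega
        · exact absurd rfl hne
        · show nb _ _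
          rw [nb_sub]
          refine ⟨⟨0, by omega, (shift0 _).symm⟩, ?_⟩
          intro h3
          rcases R_diff hM h3 with ⟨h5, _⟩ | ⟨h5, _⟩
          · rw [add_assoc, ← io_add] at h5
            have := add_io_inj h5 (by omega) (by omega); omega
          · rw [add_assoc, ← io_add] at h5
            have := add_io_inj h5 (by omega) (by omega); omega
  · -- remove x + 2
    refine ⟨some (x - io M), ?_, ?_⟩
    · show ¬ nb _ _
      rw [nb_sub]
      rintro ⟨⟨t, ht, h2⟩, _⟩
      have := add_io_inj h2 (by omega) (by omega); omega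
    · intro u hu hne
      rw [mem_Ds] at hu
      rcases hu with rfl | rfl | rfl
      · show nb _ _
        rw [nb_sub]
        refine ⟨⟨0, by omega, (shift0 _).symm⟩, ?_⟩
        intro h3
        rcases R_diff hM h3 with ⟨h5, _⟩ | ⟨h5, _⟩
        · have h6 : x + io 0 = x + io (-2) := by rw [shift0]; exact h5
          have := add_io_inj h6 (by omega) (by omega); omega
        · have h6 : x + io 0 = x + io 3 := by rw [shift0]; exact h5
          have := add_io_inj h6 (by omega) (by omega); omega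
      · show nb _ _
        rw [nb_sub]
        exact ⟨⟨1, by omega, rfl⟩, not_R_of hM x 1 (by omega) (by omega) (by omega) (by omega)⟩
      · exact absurd rfl hne

lemma io_ne (a b : ℤ) (h : a ≠ b) (h1 : a - b ≤ 2 * M) (h2 : b - a ≤ 2 * M) :
    (io a : Z M) ≠ io b := fun h3 => h (io_inj h3 h1 h2)

lemma not_R_lit (j x : Z M) (h1 : j ≠ io 2) (h2 : j ≠ io 0) (h3 : j ≠ io M)
    (h4 : j ≠ io (M + 3)) : ¬ R j x := by
  rintro (⟨h, _⟩ | ⟨h, _⟩ | ⟨h, _⟩ | ⟨h, _⟩)
  · exact h1 h
  · exact h2 h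
  · exact h3 h
  · exact h4 h

lemma inB_lit (hM : 8 ≤ M) (a b : ℤ) (h1 : b - a ≤ 8) (h2 : -7 ≤ b - a) :
    inB (io a : Z M) (io b) ↔ (b - a = -2 ∨ b - a = 0 ∨ b - a = 1 ∨ b - a = 3) := by
  have h : (io b : Z M) = io a + io (b - a) := by rw [← io_add]; congr 1; ring
  rw [h]
  exact inB_iff hM (io a) (b - a) h2 h1

lemma nb_lit (a b : ℤ) : nb (io a : Z M) (io b) ↔
    (inB (io (a + M) : Z M) (io b) ∧ ¬ R (io (a + M)) (io b : Z M)) := by
  unfold nb; rw [io_add]

lemma Es_irr (hM : 8 ≤ M) (β : Prop) (hβ : β) : Irredundant (G M β) (Es M) := by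
  rw [irr_iff hM]
  intro a ha
  rw [mem_Es] at ha
  rcases ha with rfl | rfl | rfl
  · refine ⟨some (io 1), ?_, ?_⟩
    · rintro ⟨_, h | h⟩
      · exact io_ne 1 0 (by omega) (by omega) (by omega) h
      · exact io_ne 1 2 (by omega) (by omega) (by omega) h
    · intro u hu hne
      rw [mem_Es] at hu
      have hR : ∀ x : Z M, ¬ R (io (1 + M)) x := fun x => not_R_lit _ _
        (io_ne _ _ (by omega) (by omega) (by omega)) (io_ne _ _ (by omega) (by omega) (by omega))
        (io_ne _ _ (by omega) (by omega) (by omega)) (io_ne _ _ (by omega) (by omega) (by omega))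
      rcases hu with rfl | rfl | rfl
      · exact absurd rfl hne
      · show nb _ _
        rw [nb_lit]
        exact ⟨(inB_lit hM _ _ (by omega) (by omega)).mpr (by omega), hR _⟩
      · show nb _ _
        rw [nb_lit]
        exact ⟨(inB_lit hM _ _ (by omega) (by omega)).mpr (by omega), hR _⟩
  · refine ⟨some (io 2), ?_, ?_⟩
    · show ¬ nb _ _
      rw [nb_lit]
      rintro ⟨h, _⟩
      have := (inB_lit hM _ _ (by omega) (by omega)).mp h
      omega
    · intro u hu hne
      rw [mem_Es] at hu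
      rcases hu with rfl | rfl | rfl
      · exact ⟨hβ, Or.inr rfl⟩
      · exact absurd rfl hne
      · show nb _ _
        rw [nb_lit]
        refine ⟨(inB_lit hM _ _ (by omega) (by omega)).mpr (by omega), not_R_lit _ _
        (io_ne _ _ (by omega) (by omega) (by omega)) (io_ne _ _ (by omega) (by omega) (by omega))
        (io_ne _ _ (by omega) (by omega) (by omega)) (io_ne _ _ (by omega) (by omega) (by omega))⟩
  · refine ⟨some (io 0), ?_, ?_⟩
    · show ¬ nb _ _
      rw [nb_lit]
      rintro ⟨h, _⟩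
      have := (inB_lit hM _ _ (by omega) (by omega)).mp h
      omega
    · intro u hu hne
      rw [mem_Es] at hu
      rcases hu with rfl | rfl | rfl
      · exact ⟨hβ, Or.inl rfl⟩
      · show nb _ _
        rw [nb_lit]
        refine ⟨(inB_lit hM _ _ (by omega) (by omega)).mpr (by omega), ?_⟩
        rintro (⟨h, _⟩ | ⟨_, h⟩ | ⟨_, h⟩ | ⟨h, _⟩)
        · exact io_ne _ _ (by omega) (by omega) (by omega) h
        · exact io_ne _ _ (by omega) (by omega) (by omega) h
        · exact io_ne _ _ (by omega) (by omega) (by omega) h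
        · exact io_ne _ _ (by omega) (by omega) (by omega) h
      · exact absurd rfl hne

/-- Analysis of an irredundant triple through the optional vertex, ordered version. -/
lemma none_case (hM : 8 ≤ M) (β : Prop) (b c : Z M)
    (h1 : nb (io 0) b) (h2 : ¬ nb (io 0) c) (h3 : nb (io 2) c) (h4 : ¬ nb (io 2) b)
    (h5 : ∃ w : Option (Z M), ¬ nbO β w none ∧ nbO β w (some b) ∧ nbO β w (some c)) :
    b = io (M + 1) ∧ c = io (M + 2) := by
  obtain ⟨⟨t, ht, hb⟩, hRb⟩ := h1
  obtain ⟨⟨s, hs, hc⟩, hRc⟩ := h3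
  have hb' : b = io (M + t) := by rw [hb, ← io_add, ← io_add]; congr 1 <;> ring
  have hc' : c = io (M + 2 + s) := by rw [hc, ← io_add, ← io_add]; congr 1 <;> ring
  have ht3 : t ≠ 3 := by
    rintro rfl
    apply hRb
    right; right; left
    exact ⟨by rw [io_zero, zero_add], hb'⟩
  have ht0 : t ≠ 0 := by
    rintro rfl
    apply h4
    rw [hb', nb_lit]
    exact ⟨(inB_lit hM _ _ (by omega) (by omega)).mpr (by omega), not_R_lit _ _
        (io_ne _ _ (by omega) (by omega) (by omega)) (io_ne _ _ (by omega) (by omega) (by omega))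
        (io_ne _ _ (by omega) (by omega) (by omega)) (io_ne _ _ (by omega) (by omega) (by omega))⟩
  have hs2 : s ≠ -2 := by
    rintro rfl
    apply h2
    rw [hc', nb_lit]
    refine ⟨(inB_lit hM _ _ (by omega) (by omega)).mpr (by omega), ?_⟩
    rintro (⟨h, _⟩ | ⟨_, h⟩ | ⟨_, h⟩ | ⟨h, _⟩)
    · exact io_ne _ _ (by omega) (by omega) (by omega) h
    · exact io_ne _ _ (by omega) (by omega) (by omega) h
    · exact io_ne _ _ (by omega) (by omega) (by omega) h
    · exact io_ne _ _ (by omega) (by omega) (by omega) h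
  obtain ⟨w, hw1, hw2, hw3⟩ := h5
  rcases w with _ | w
  · exfalso
    rcases hw2.2 with h | h
    · rw [hb'] at h
      exact io_ne _ _ (by omega) (by omega) (by omega) h
    · rw [hb'] at h
      exact io_ne _ _ (by omega) (by omega) (by omega) h
  · -- pair b, c covered by w
    have hTr : Tr b c (b + io 100) ∨ True := Or.inr trivial
    obtain ⟨⟨t', ht', hb2⟩, hR1⟩ := hw2
    obtain ⟨⟨s', hs', hc2⟩, hR2⟩ := hw3
    have hdiff : s' - t' = 2 + s - t := by
      have h6 : (io (s' - t') : Z M) = io (2 + s - t) := by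
        have e1 : (io (s' - t') : Z M) = c - b := by
          rw [hb2, hc2, io_sub]; ring
        have e2 : (io (2 + s - t) : Z M) = c - b := by
          rw [hb', hc', ← io_sub]; congr 1 <;> ring
        rw [e1, e2]
      exact io_inj h6 (by omega) (by omega)
    have hj : w + io M = io (M + t - t') := by
      have : w + io M = b - io t' := by rw [hb2]; ring
      rw [this, hb', ← io_sub]
    have hcase : (t = -2 ∧ s = 1 ∧ t' = -2) ∨ (t = 1 ∧ s = 0) ∨ (t = 1 ∧ s = 1) := by omega
    rcases hcase with ⟨rfl, rfl, rfl⟩ | ⟨rfl, rfl⟩ | ⟨rfl, rfl⟩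
    · exfalso
      apply hR2
      right; right; left
      refine ⟨by rw [hj]; congr 1 <;> ring, by rw [hc']; congr 1 <;> ring⟩
    · exact ⟨hb', by rw [hc']; congr 1 <;> ring⟩
    · exfalso
      have h7 : t' = -2 ∨ t' = 1 := by omega
      rcases h7 with rfl | rfl
      · apply hR1
        right; right; right
        exact ⟨by rw [hj]; congr 1 <;> ring, hb'⟩
      · apply hR2
        right; right; left
        exact ⟨by rw [hj]; congr 1 <;> ring, by rw [hc']; congr 1 <;> ring⟩

lemma none_class (hM : 8 ≤ M) (β : Prop) (b c : Z M) (hbc : b ≠ c)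
    (D : Finset (Option (Z M))) (hD : Irredundant (G M β) D)
    (hn : none ∈ D) (hb : some b ∈ D) (hc : some c ∈ D) :
    β ∧ ((b = io (M + 1) ∧ c = io (M + 2)) ∨ (c = io (M + 1) ∧ b = io (M + 2))) := by
  rw [irr_iff hM] at hD
  obtain ⟨w1, h11, h12⟩ := hD _ hc
  obtain ⟨w2, h21, h22⟩ := hD _ hb
  obtain ⟨w3, h31, h32⟩ := hD _ hn
  have hbc' : (some b : Option (Z M)) ≠ some c := fun h => hbc (Option.some.inj h)
  have hw1n := h12 none hn (by simp)
  have hw2n := h22 none hn (by simp)
  have hw1b := h12 _ hb hbc'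
  have hw2c := h22 _ hc hbc'.symm
  have h5 : ∃ w : Option (Z M), ¬ nbO β w none ∧ nbO β w (some b) ∧ nbO β w (some c) :=
    ⟨w3, h31, h32 _ hb (by simp), h32 _ hc (by simp)⟩
  have h5' : ∃ w : Option (Z M), ¬ nbO β w none ∧ nbO β w (some c) ∧ nbO β w (some b) :=
    ⟨w3, h31, h32 _ hc (by simp), h32 _ hb (by simp)⟩
  rcases w1 with _ | w1
  · exact absurd hw1n id
  rcases w2 with _ | w2
  · exact absurd hw2n id
  have hne : w1 ≠ w2 := by
    rintro rfl
    exact h11 hw2c
  obtain ⟨hβ, h1 | h1⟩ := hw1n <;> obtain ⟨_, h2 | h2⟩ := hw2n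
  · exact absurd (h1.trans h2.symm) hne
  · subst h1; subst h2
    exact ⟨hβ, Or.inl (none_case hM β b c hw1b h11 hw2c h21 h5)⟩
  · subst h1; subst h2
    exact ⟨hβ, Or.inr (none_case hM β c b hw2c h21 hw1b h11 h5')⟩
  · exact absurd (h1.trans h2.symm) hne

lemma class_all (hM : 8 ≤ M) (β : Prop) (D : Finset (Option (Z M)))
    (hD : Irredundant (G M β) D) (hc : D.card = 3) :
    (∃ x, x ≠ io (M + 1) ∧ D = Ds x) ∨ (β ∧ D = Es M) := by
  have hall : ∀ a b c : Z M, a ≠ b → a ≠ c → b ≠ c → D = {some a, some b, some c} →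
      ∃ x, x ≠ io (M + 1) ∧ D = Ds x := by
    intro a b c hab hac hbc hDe
    have hT := irr_tri hM β a b c hab hac hbc D hD (by rw [hDe]; simp) (by rw [hDe]; simp)
      (by rw [hDe]; simp)
    obtain ⟨x, hx, hs⟩ := classify hM β a b c hab hac hbc hT
    refine ⟨x, hx, ?_⟩
    have h1 : D = ({a, b, c} : Finset (Z M)).map Function.Embedding.some := by
      rw [hDe]; simp
    have h2 : Ds x = ({x, x + io 1, x + io 2} : Finset (Z M)).map Function.Embedding.some := by
      unfold Ds; simp
    rw [h1, h2, hs]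
  have hnone : ∀ b c : Z M, b ≠ c → D = {none, some b, some c} → β ∧ D = Es M := by
    intro b c hbc hDe
    obtain ⟨hβ, ⟨h1, h2⟩ | ⟨h1, h2⟩⟩ := none_class hM β b c hbc D hD (by rw [hDe]; simp)
      (by rw [hDe]; simp) (by rw [hDe]; simp)
    · refine ⟨hβ, ?_⟩
      rw [hDe, h1, h2]; rfl
    · refine ⟨hβ, ?_⟩
      rw [hDe, h1, h2]
      unfold Es
      rw [Finset.pair_comm (some (io (M + 2) : Z M))]
  obtain ⟨u, v, w, huv, huw, hvw, rfl⟩ := Finset.card_eq_three.mp hc
  rcases u with _ | u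
  · rcases v with _ | v
    · exact absurd rfl huv
    · rcases w with _ | w
      · exact absurd rfl huw
      · exact Or.inr (hnone v w (fun h => hvw (by rw [h])) rfl)
  · rcases v with _ | v
    · rcases w with _ | w
      · exact absurd rfl hvw
      · exact Or.inr (hnone u w (fun h => huw (by rw [h])) (Finset.insert_comm _ _ _))
    · rcases w with _ | w
      · refine Or.inr (hnone u v (fun h => huv (by rw [h])) ?_)
        rw [Finset.pair_comm (some v) none, Finset.insert_comm]
      · exact Or.inl (hall u v w (fun h => huv (by rw [h])) (fun h => huw (by rw [h]))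
          (fun h => hvw (by rw [h])) rfl)

lemma Ds_eq_union (x y : Z M) (h1 : some y ∈ Ds x) :
    ∃ k : ℤ, (k = 0 ∨ k = 1 ∨ k = 2) ∧ y = x + io k := by
  rw [mem_Ds] at h1
  rcases h1 with h1 | h1 | h1
  · exact ⟨0, by omega, by rw [shift0]; exact Option.some.inj h1⟩
  · exact ⟨1, by omega, Option.some.inj h1⟩
  · exact ⟨2, by omega, Option.some.inj h1⟩

lemma none_notMem_Ds (x : Z M) : (none : Option (Z M)) ∉ Ds x := by
  rw [mem_Ds]; simp

lemma io_ne' (x : Z M) (a b : ℤ) (h : a ≠ b) (h1 : a - b ≤ 2 * M) (h2 : b - a ≤ 2 * M) :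
    x + io a ≠ x + io b := fun h3 => h (add_io_inj h3 h1 h2)

lemma Ds_card (hM : 8 ≤ M) (x : Z M) : (Ds x).card = 3 := by
  unfold Ds
  rw [Finset.card_eq_three]
  refine ⟨_, _, _, ?_, ?_, ?_, rfl⟩
  · intro h
    have h1 : x + io 0 = x + io 1 := by rw [shift0]; exact Option.some.inj h
    exact io_ne' x 0 1 (by omega) (by omega) (by omega) h1
  · intro h
    have h1 : x + io 0 = x + io 2 := by rw [shift0]; exact Option.some.inj h
    exact io_ne' x 0 2 (by omega) (by omega) (by omega) h1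
  · intro h
    exact io_ne' x 1 2 (by omega) (by omega) (by omega) (Option.some.inj h)

lemma Es_card (hM : 8 ≤ M) : (Es M).card = 3 := by
  unfold Es
  rw [Finset.card_eq_three]
  refine ⟨_, _, _, by simp, by simp, ?_, rfl⟩
  intro h
  exact io_ne (M + 1) (M + 2) (by omega) (by omega) (by omega) (Option.some.inj h)

/-- A consecutive triple determines its start. -/
lemma Ds_inj (hM : 8 ≤ M) {x y : Z M} (h : Ds x = Ds y) : x = y := by
  have h0 : some x ∈ Ds y := by rw [← h, mem_Ds]; exact Or.inl rfl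
  have h2 : some (x + io 2) ∈ Ds y := by rw [← h, mem_Ds]; exact Or.inr (Or.inr rfl)
  obtain ⟨k, hk, hk'⟩ := Ds_eq_union y x h0
  obtain ⟨l, hl, hl'⟩ := Ds_eq_union y _ h2
  rw [hk', add_assoc, ← io_add] at hl'
  have := add_io_inj hl' (by omega) (by omega)
  have hk0 : k = 0 := by omega
  rw [hk', hk0, shift0]

lemma card_le (hM : 8 ≤ M) (β : Prop) (T : Finset (Option (Z M)))
    (hT : Irredundant (G M β) T) : T.card ≤ 3 := by
  by_contra hcon
  push Not at hcon
  -- a triple of ordinary vertices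
  have h1 : 3 ≤ (T.erase none).card := by
    have := Finset.pred_card_le_card_erase (s := T) (a := none)
    omega
  obtain ⟨U, hU, hUc⟩ := Finset.exists_subset_card_eq h1
  have hUT : U ⊆ T := hU.trans (Finset.erase_subset _ _)
  have hUn : none ∉ U := fun h => (Finset.mem_erase.mp (hU h)).1 rfl
  obtain ⟨x, hx, hUx⟩ : ∃ x, x ≠ io (M + 1) ∧ U = Ds x := by
    rcases class_all hM β U (irr_subset _ T U hT hUT) hUc with h | ⟨_, h⟩
    · exact h
    · exfalso; apply hUn; rw [h, mem_Es]; exact Or.inl rfl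
  obtain ⟨y, hyT, hyU⟩ : ∃ y ∈ T, y ∉ U := by
    by_contra h
    push Not at h
    have := Finset.card_le_card (fun z hz => h z hz : T ⊆ U)
    omega
  rw [hUx, mem_Ds] at hyU
  push Not at hyU
  obtain ⟨hy0, hy1, hy2⟩ := hyU
  have hx0 : some x ∈ T := hUT (by rw [hUx, mem_Ds]; exact Or.inl rfl)
  have hx1 : some (x + io 1) ∈ T := hUT (by rw [hUx, mem_Ds]; exact Or.inr (Or.inl rfl))
  have hx2 : some (x + io 2) ∈ T := hUT (by rw [hUx, mem_Ds]; exact Or.inr (Or.inr rfl))
  have hn01 : (some x : Option (Z M)) ≠ some (x + io 1) := by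
    intro h
    have h1 : x + io 0 = x + io 1 := by rw [shift0]; exact Option.some.inj h
    exact io_ne' x 0 1 (by omega) (by omega) (by omega) h1
  have hn12 : (some (x + io 1) : Option (Z M)) ≠ some (x + io 2) := by
    intro h
    exact io_ne' x 1 2 (by omega) (by omega) (by omega) (Option.some.inj h)
  have hA : Irredundant (G M β) {some x, some (x + io 1), y} := by
    apply irr_subset _ T _ hT
    intro z hz
    simp only [mem_insert, mem_singleton] at hz
    rcases hz with rfl | rfl | rfl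
    · exact hx0
    · exact hx1
    · exact hyT
  have hAc : ({some x, some (x + io 1), y} : Finset (Option (Z M))).card = 3 :=
    Finset.card_eq_three.mpr ⟨_, _, _, hn01, hy0.symm, hy1.symm, rfl⟩
  have hB : Irredundant (G M β) {some (x + io 1), some (x + io 2), y} := by
    apply irr_subset _ T _ hT
    intro z hz
    simp only [mem_insert, mem_singleton] at hz
    rcases hz with rfl | rfl | rfl
    · exact hx1
    · exact hx2
    · exact hyT
  have hBc : ({some (x + io 1), some (x + io 2), y} : Finset (Option (Z M))).card = 3 :=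
    Finset.card_eq_three.mpr ⟨_, _, _, hn12, hy1.symm, hy2.symm, rfl⟩
  rcases y with _ | y
  · -- y is the optional vertex
    rcases class_all hM β _ hA hAc with ⟨z, _, h⟩ | ⟨_, h⟩
    · apply none_notMem_Ds z
      rw [← h]; simp
    · rcases class_all hM β _ hB hBc with ⟨z, _, h'⟩ | ⟨_, h'⟩
      · apply none_notMem_Ds z
        rw [← h']; simp
      · have g0 : some x ∈ Es M := by rw [← h]; simp
        have g2 : some (x + io 2) ∈ Es M := by rw [← h']; simp
        rw [mem_Es] at g0 g2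
        rcases g0 with g0 | g0 | g0
        · exact absurd g0 (by simp)
        · exact hx (Option.some.inj g0)
        · rcases g2 with g2 | g2 | g2
          · exact absurd g2 (by simp)
          · have g3 := Option.some.inj g0
            have g4 := Option.some.inj g2
            rw [g3, ← io_add] at g4
            exact io_ne _ _ (by omega) (by omega) (by omega) g4
          · have g3 := Option.some.inj g0
            have g4 := Option.some.inj g2
            rw [g3, ← io_add] at g4
            exact io_ne _ _ (by omega) (by omega) (by omega) g4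
  · rcases class_all hM β _ hA hAc with ⟨z, _, h⟩ | ⟨_, h⟩
    · rcases class_all hM β _ hB hBc with ⟨z', _, h'⟩ | ⟨_, h'⟩
      · have hyx2 : y ≠ x + io 2 := fun h => hy2 (by rw [h])
        have hyx : y ≠ x := fun h => hy0 (by rw [h])
        -- x, x+1, y in Ds z ; x+1, x+2, y in Ds z'
        obtain ⟨k0, hk0, e0⟩ := Ds_eq_union z x (by rw [← h]; simp)
        obtain ⟨k1, hk1, e1⟩ := Ds_eq_union z (x + io 1) (by rw [← h]; simp)
        obtain ⟨k2, hk2, e2⟩ := Ds_eq_union z y (by rw [← h]; simp)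
        obtain ⟨l1, hl1, f1⟩ := Ds_eq_union z' (x + io 1) (by rw [← h']; simp)
        obtain ⟨l2, hl2, f2⟩ := Ds_eq_union z' (x + io 2) (by rw [← h']; simp)
        obtain ⟨l3, hl3, f3⟩ := Ds_eq_union z' y (by rw [← h']; simp)
        have hk01 : k1 = k0 + 1 := by
          have : z + io k1 = z + io (k0 + 1) := by rw [← e1, io_add, ← add_assoc, ← e0]
          exact add_io_inj this (by omega) (by omega)
        have hl12 : l2 = l1 + 1 := by
          have : z' + io l2 = z' + io (l1 + 1) := by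
            rw [← f2, io_add, ← add_assoc, ← f1, add_assoc, ← io_add]; rfl
          exact add_io_inj this (by omega) (by omega)
        -- y = x + (k2 - k0), y = x + 1 + (l3 - l1)
        have hy1' : y = x + io (k2 - k0) := by
          rw [e2, e0, add_assoc, ← io_add]; congr 2; ring
        have hy2' : y = x + io (1 + (l3 - l1)) := by
          have : x + io (1 + (l3 - l1)) = x + io 1 + io (l3 - l1) := by
            rw [io_add, ← add_assoc]
          rw [this, f1, f3, add_assoc, ← io_add]; congr 2; ring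
        have hkl : k2 - k0 = 1 + (l3 - l1) := by
          apply add_io_inj (x := x) _ (by omega) (by omega)
          rw [← hy1', ← hy2']
        have hne0 : k2 - k0 ≠ 0 := by
          intro h0
          rw [h0, shift0] at hy1'
          exact hyx hy1'
        have hne1 : k2 - k0 ≠ 1 := by
          intro h0
          rw [h0] at hy1'
          exact hy1 (by rw [hy1'])
        have hne2 : k2 - k0 ≠ 2 := by
          intro h0
          rw [h0] at hy1'
          exact hyx2 hy1'
        omega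
      · have : (none : Option (Z M)) ∈ Es M := by rw [mem_Es]; exact Or.inl rfl
        rw [← h'] at this
        simp at this
    · have : (none : Option (Z M)) ∈ Es M := by rw [mem_Es]; exact Or.inl rfl
      rw [← h] at this
      simp at this

lemma slides_Ds (hM : 8 ≤ M) (β : Prop) (x y : Z M)
    (h : Slides (G M β) (Ds x) (Ds y)) : y = x + io 1 ∨ x = y + io 1 := by
  have hxy : x ≠ y := by
    rintro rfl
    exact slides_irrefl _ _ h
  obtain ⟨u, hu, v, hv, hvu, hadj, heq⟩ := h
  have hmem : ∀ z : Z M, some z ∈ Ds x → some z ≠ u → ∃ k : ℤ, (k = 0 ∨ k = 1 ∨ k = 2) ∧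
      z = y + io k := by
    intro z hz hzu
    apply Ds_eq_union y z
    rw [heq, Finset.mem_insert]
    exact Or.inr (Finset.mem_erase.mpr ⟨hzu, hz⟩)
  have m0 : some x ∈ Ds x := by rw [mem_Ds]; exact Or.inl rfl
  have m1 : some (x + io 1) ∈ Ds x := by rw [mem_Ds]; exact Or.inr (Or.inl rfl)
  have m2 : some (x + io 2) ∈ Ds x := by rw [mem_Ds]; exact Or.inr (Or.inr rfl)
  have n01 : (some x : Option (Z M)) ≠ some (x + io 1) := by
    intro h
    have h1 : x + io 0 = x + io 1 := by rw [shift0]; exact Option.some.inj h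
    exact io_ne' x 0 1 (by omega) (by omega) (by omega) h1
  have n02 : (some x : Option (Z M)) ≠ some (x + io 2) := by
    intro h
    have h1 : x + io 0 = x + io 2 := by rw [shift0]; exact Option.some.inj h
    exact io_ne' x 0 2 (by omega) (by omega) (by omega) h1
  have n12 : (some (x + io 1) : Option (Z M)) ≠ some (x + io 2) := by
    intro h
    exact io_ne' x 1 2 (by omega) (by omega) (by omega) (Option.some.inj h)
  have hk12 : ∀ k1 k2 : ℤ, (k1 = 0 ∨ k1 = 1 ∨ k1 = 2) → (k2 = 0 ∨ k2 = 1 ∨ k2 = 2) →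
      x + io 1 = y + io k1 → x + io 2 = y + io k2 → k2 = k1 + 1 := by
    intro k1 k2 h1 h2 e1 e2
    apply add_io_inj (x := y) _ (by omega) (by omega)
    rw [← e2, io_add, ← add_assoc, ← e1, add_assoc, ← io_add]; rfl
  rw [mem_Ds] at hu
  rcases hu with rfl | rfl | rfl
  · obtain ⟨k1, hk1, e1⟩ := hmem _ m1 n01.symm
    obtain ⟨k2, hk2, e2⟩ := hmem _ m2 n02.symm
    have := hk12 k1 k2 hk1 hk2 e1 e2
    have h3 : k1 = 0 ∨ k1 = 1 := by omega
    rcases h3 with rfl | rfl
    · left; rw [shift0] at e1; exact e1.symm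
    · exact absurd (add_right_cancel e1) hxy
  · obtain ⟨k0, hk0, e0⟩ := hmem _ m0 n01
    obtain ⟨k2, hk2, e2⟩ := hmem _ m2 n12.symm
    have h3 : k2 = k0 + 2 := by
      apply add_io_inj (x := y) _ (by omega) (by omega)
      rw [← e2, io_add, ← add_assoc, ← e0]
    have h4 : k0 = 0 := by omega
    rw [h4, shift0] at e0
    exact absurd e0 hxy
  · obtain ⟨k0, hk0, e0⟩ := hmem _ m0 n02
    obtain ⟨k1, hk1, e1⟩ := hmem _ m1 n12
    have h3 : k1 = k0 + 1 := by
      apply add_io_inj (x := y) _ (by omega) (by omega)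
      rw [← e1, io_add, ← add_assoc, ← e0]
    have h4 : k0 = 0 ∨ k0 = 1 := by omega
    rcases h4 with rfl | rfl
    · rw [shift0] at e0
      exact absurd e0 hxy
    · right; exact e0

lemma slides_Ds_of (hM : 8 ≤ M) (β : Prop) (x : Z M) :
    Slides (G M β) (Ds x) (Ds (x + io 1)) := by
  have a1 : x + io 1 + io 1 = x + io 2 := by rw [add_assoc, ← io_add]; rfl
  have a2 : x + io 1 + io 2 = x + io 3 := by rw [add_assoc, ← io_add]; rfl
  have n0 : ∀ k : ℤ, 0 < k → k ≤ 3 → (some (x + io k) : Option (Z M)) ≠ some x := by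
    intro k hk0 hk3 h
    have h1 : x + io k = x + io 0 := by rw [shift0]; exact Option.some.inj h
    exact io_ne' x k 0 (by omega) (by omega) (by omega) h1
  refine ⟨some x, by rw [mem_Ds]; exact Or.inl rfl, some (x + io 3), ?_, n0 3 (by omega) (by omega),
    ⟨(n0 3 (by omega) (by omega)).symm, ?_⟩, ?_⟩
  · rw [mem_Ds, a2]; exact Or.inr (Or.inr rfl)
  · rintro ⟨⟨t, ht, h⟩, _⟩
    rw [add_assoc, ← io_add] at h
    have := add_io_inj h (by omega) (by omega)
    omega
  · ext z
    rw [mem_Ds, a1, a2, Finset.mem_insert, Finset.mem_erase, mem_Ds]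
    constructor
    · rintro (rfl | rfl | rfl)
      · exact Or.inr ⟨n0 1 (by omega) (by omega), Or.inr (Or.inl rfl)⟩
      · exact Or.inr ⟨n0 2 (by omega) (by omega), Or.inr (Or.inr rfl)⟩
      · exact Or.inl rfl
    · rintro (rfl | ⟨h1, rfl | rfl | rfl⟩)
      · exact Or.inr (Or.inr rfl)
      · exact absurd rfl h1
      · exact Or.inl rfl
      · exact Or.inr (Or.inl rfl)

lemma slides_Ds_Es (hM : 8 ≤ M) (β : Prop) (x : Z M) (hx : x ≠ io (M + 1))
    (h : Slides (G M β) (Ds x) (Es M)) : x = io M := by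
  obtain ⟨u, hu, v, hv, hvu, hadj, heq⟩ := h
  have hmem : ∀ z : Z M, some z ∈ Ds x → some z ≠ u → z = io (M + 1) ∨ z = io (M + 2) := by
    intro z hz hzu
    have h1 : some z ∈ Es M := by
      rw [heq, Finset.mem_insert]
      exact Or.inr (Finset.mem_erase.mpr ⟨hzu, hz⟩)
    rw [mem_Es] at h1
    rcases h1 with h1 | h1 | h1
    · exact absurd h1 (by simp)
    · exact Or.inl (Option.some.inj h1)
    · exact Or.inr (Option.some.inj h1)
  have m0 : some x ∈ Ds x := by rw [mem_Ds]; exact Or.inl rfl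
  have m1 : some (x + io 1) ∈ Ds x := by rw [mem_Ds]; exact Or.inr (Or.inl rfl)
  have m2 : some (x + io 2) ∈ Ds x := by rw [mem_Ds]; exact Or.inr (Or.inr rfl)
  have n01 : (some x : Option (Z M)) ≠ some (x + io 1) := by
    intro h
    have h1 : x + io 0 = x + io 1 := by rw [shift0]; exact Option.some.inj h
    exact io_ne' x 0 1 (by omega) (by omega) (by omega) h1
  have n02 : (some x : Option (Z M)) ≠ some (x + io 2) := by
    intro h
    have h1 : x + io 0 = x + io 2 := by rw [shift0]; exact Option.some.inj h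
    exact io_ne' x 0 2 (by omega) (by omega) (by omega) h1
  have n12 : (some (x + io 1) : Option (Z M)) ≠ some (x + io 2) := by
    intro h
    exact io_ne' x 1 2 (by omega) (by omega) (by omega) (Option.some.inj h)
  rw [mem_Ds] at hu
  rcases hu with rfl | rfl | rfl
  · rcases hmem _ m1 n01.symm with h1 | h1
    · have h2 : x + io 1 = io M + io 1 := by rw [h1, io_add]
      exact add_right_cancel h2
    · exfalso
      apply hx
      have h2 : x + io 1 = io (M + 1) + io 1 := by rw [h1, ← io_add]; congr 1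
      exact add_right_cancel h2
  · rcases hmem _ m0 n01 with h1 | h1
    · exact absurd h1 hx
    · rcases hmem _ m2 n12.symm with h2 | h2
      · rw [h1, ← io_add] at h2
        exact absurd h2 (io_ne _ _ (by omega) (by omega) (by omega))
      · rw [h1, ← io_add] at h2
        exact absurd h2 (io_ne _ _ (by omega) (by omega) (by omega))
  · rcases hmem _ m0 n02 with h1 | h1
    · exact absurd h1 hx
    · rcases hmem _ m1 n12 with h2 | h2
      · rw [h1, ← io_add] at h2
        exact absurd h2 (io_ne _ _ (by omega) (by omega) (by omega))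
      · rw [h1, ← io_add] at h2
        exact absurd h2 (io_ne _ _ (by omega) (by omega) (by omega))

lemma slides_Ds_Es_of (hM : 8 ≤ M) (β : Prop) : Slides (G M β) (Ds (io M)) (Es M) := by
  have a1 : (io M + io 1 : Z M) = io (M + 1) := by rw [← io_add]
  have a2 : (io M + io 2 : Z M) = io (M + 2) := by rw [← io_add]
  refine ⟨some (io M), by rw [mem_Ds]; exact Or.inl rfl, none, by rw [mem_Es]; exact Or.inl rfl,
    by simp, ⟨by simp, ?_⟩, ?_⟩
  · rintro ⟨_, h | h⟩
    · exact io_ne _ _ (by omega) (by omega) (by omega) h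
    · exact io_ne _ _ (by omega) (by omega) (by omega) h
  · ext z
    rw [mem_Es, Finset.mem_insert, Finset.mem_erase, mem_Ds, a1, a2]
    constructor
    · rintro (rfl | rfl | rfl)
      · exact Or.inl rfl
      · refine Or.inr ⟨?_, Or.inr (Or.inl rfl)⟩
        intro h
        exact io_ne _ _ (by omega) (by omega) (by omega) (Option.some.inj h)
      · refine Or.inr ⟨?_, Or.inr (Or.inr rfl)⟩
        intro h
        exact io_ne _ _ (by omega) (by omega) (by omega) (Option.some.inj h)
    · rintro (rfl | ⟨h1, rfl | rfl | rfl⟩)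
      · exact Or.inl rfl
      · exact absurd rfl h1
      · exact Or.inr (Or.inl rfl)
      · exact Or.inr (Or.inr rfl)

/-- The IR-sets in the order of the path. -/
def fs (M : ℕ) (k : ℕ) : Finset (Option (Z M)) :=
  if k < 2 * M then Ds (io (M + 2 + k)) else Es M

lemma fs_lt {k : ℕ} (h : k < 2 * M) : fs M k = Ds (io (M + 2 + k)) := by
  unfold fs; rw [if_pos h]

lemma fs_ge {k : ℕ} (h : ¬ k < 2 * M) : fs M k = Es M := by
  unfold fs; rw [if_neg h]

lemma io_start_ne (k : ℕ) (h : k < 2 * M) : (io (M + 2 + k) : Z M) ≠ io (M + 1) :=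
  io_ne _ _ (by omega) (by omega) (by omega)

lemma fs_irset (hM : 8 ≤ M) (β : Prop) (k : ℕ) (h : k < 2 * M ∨ β) :
    IsIRSet (G M β) (fs M k) := by
  by_cases hk : k < 2 * M
  · rw [fs_lt hk]
    exact ⟨Ds_irr hM β _ (io_start_ne k hk), fun T hT => by
      rw [Ds_card hM]; exact card_le hM β T hT⟩
  · rw [fs_ge hk]
    rcases h with h | h
    · exact absurd h hk
    · exact ⟨Es_irr hM β h, fun T hT => by rw [Es_card hM]; exact card_le hM β T hT⟩

lemma fs_inj (hM : 8 ≤ M) (k l : ℕ) (hk : k < 2 * M + 1) (hl : l < 2 * M + 1)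
    (h : fs M k = fs M l) : k = l := by
  by_cases hk' : k < 2 * M <;> by_cases hl' : l < 2 * M
  · rw [fs_lt hk', fs_lt hl'] at h
    have := io_inj (Ds_inj hM h) (by omega) (by omega)
    omega
  · rw [fs_lt hk', fs_ge hl'] at h
    exfalso
    apply none_notMem_Ds (io (M + 2 + k) : Z M)
    rw [h, mem_Es]; exact Or.inl rfl
  · rw [fs_ge hk', fs_lt hl'] at h
    exfalso
    apply none_notMem_Ds (io (M + 2 + l) : Z M)
    rw [← h, mem_Es]; exact Or.inl rfl
  · omega

lemma fs_surj (hM : 8 ≤ M) (β : Prop) (T : Finset (Option (Z M))) (hT : IsIRSet (G M β) T) :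
    ∃ k, (k < 2 * M ∨ (k = 2 * M ∧ β)) ∧ fs M k = T := by
  have hc : T.card = 3 := by
    apply le_antisymm (card_le hM β T hT.1)
    rw [← Ds_card hM (io (M + 2 + (0 : ℕ)) : Z M)]
    exact hT.2 _ (Ds_irr hM β _ (io_start_ne 0 (by omega)))
  rcases class_all hM β T hT.1 hc with ⟨x, hx, rfl⟩ | ⟨hβ, rfl⟩
  · have hr := ZMod.val_lt (x - io (M + 2))
    have hx2 : x = io (M + 2 + ((x - io (M + 2)).val : ℕ)) := by
      have h1 : ((((x - io (M + 2)).val : ℕ)) : Z M) = x - io (M + 2) :=
        ZMod.natCast_zmod_val _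
      rw [io_add]
      have h2 : (io (((x - io (M + 2)).val : ℕ) : ℤ) : Z M) = x - io (M + 2) := by
        unfold io at h1 ⊢
        rw [Int.cast_natCast]
        exact h1
      rw [h2]; ring
    have hlt : (x - io (M + 2)).val < 2 * M := by
      by_contra hge
      have h3 : (x - io (M + 2)).val = 2 * M := by omega
      rw [h3] at hx2
      apply hx
      rw [hx2]
      have h4 : (io (M + 2 + ((2 * M : ℕ) : ℤ)) : Z M) = io (M + 1) + io (2 * M + 1) := by
        rw [← io_add]; congr 1; push_cast; ring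
      rw [h4, io_half, add_zero]
    refine ⟨(x - io (M + 2)).val, Or.inl hlt, ?_⟩
    rw [fs_lt hlt, ← hx2]
  · exact ⟨2 * M, Or.inr ⟨rfl, hβ⟩, fs_ge (by omega)⟩

lemma fs_slides (hM : 8 ≤ M) (β : Prop) (k l : ℕ) (hk : k < 2 * M ∨ (k = 2 * M ∧ β))
    (hl : l < 2 * M ∨ (l = 2 * M ∧ β)) :
    Slides (G M β) (fs M k) (fs M l) ↔ (k + 1 = l ∨ l + 1 = k) := by
  have symm : ∀ i j : ℕ, (i < 2 * M ∨ (i = 2 * M ∧ β)) → (j < 2 * M ∨ (j = 2 * M ∧ β)) →
      Slides (G M β) (fs M i) (fs M j) → Slides (G M β) (fs M j) (fs M i) := by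
    intro i j hi hj h
    have hi' : i < 2 * M ∨ β := hi.imp id (fun h => h.2)
    have hj' : j < 2 * M ∨ β := hj.imp id (fun h => h.2)
    exact slides_symm _ _ _ (le_antisymm ((fs_irset hM β j hj').2 _ (fs_irset hM β i hi').1)
      ((fs_irset hM β i hi').2 _ (fs_irset hM β j hj').1)) h
  have fwd : ∀ i j : ℕ, (i < 2 * M ∨ (i = 2 * M ∧ β)) → (j < 2 * M ∨ (j = 2 * M ∧ β)) →
      i + 1 = j → Slides (G M β) (fs M i) (fs M j) := by
    intro i j hi hj hij
    have hi' : i < 2 * M := by omega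
    rw [fs_lt hi']
    rcases hj with hj | ⟨hj, _⟩
    · rw [fs_lt hj]
      have : (io (M + 2 + j) : Z M) = io (M + 2 + i) + io 1 := by
        rw [← io_add]; congr 1; omega
      rw [this]
      exact slides_Ds_of hM β _
    · rw [fs_ge (by omega)]
      have : (io (M + 2 + i) : Z M) = io M := by
        have h1 : (io (M + 2 + i) : Z M) = io M + io (2 * M + 1) := by
          rw [← io_add]; congr 1; omega
        rw [h1, io_half, add_zero]
      rw [this]
      exact slides_Ds_Es_of hM β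
  constructor
  · intro h
    by_cases hk' : k < 2 * M <;> by_cases hl' : l < 2 * M
    · rw [fs_lt hk', fs_lt hl'] at h
      rcases slides_Ds hM β _ _ h with h1 | h1
      · rw [← io_add] at h1
        have := io_inj h1 (by omega) (by omega)
        omega
      · rw [← io_add] at h1
        have := io_inj h1 (by omega) (by omega)
        omega
    · rw [fs_lt hk', fs_ge hl'] at h
      have h1 := slides_Ds_Es hM β _ (io_start_ne k hk') h
      by_cases hk2 : k + 1 = l
      · exact Or.inl hk2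
      · exfalso
        exact io_ne _ _ (by omega) (by omega) (by omega) h1
    · have h' := symm k l hk hl h
      rw [fs_ge hk', fs_lt hl'] at h'
      have h1 := slides_Ds_Es hM β _ (io_start_ne l hl') h'
      by_cases hk2 : l + 1 = k
      · exact Or.inr hk2
      · exfalso
        exact io_ne _ _ (by omega) (by omega) (by omega) h1
    · exfalso
      rw [fs_ge hk', fs_ge hl'] at h
      exact slides_irrefl _ _ h
  · rintro (h | h)
    · exact fwd k l hk hl h
    · exact symm l k hl hk (fwd l k hl hk h)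

/-- The main construction. -/
theorem iso (hM : 8 ≤ M) (β : Prop) (K : ℕ) (hK : (K = 2 * M ∧ ¬ β) ∨ (K = 2 * M + 1 ∧ β)) :
    Nonempty (IRGraph (G M β) ≃g SimpleGraph.pathGraph K) := by
  have hdom : ∀ i : Fin K, (i : ℕ) < 2 * M ∨ ((i : ℕ) = 2 * M ∧ β) := by
    intro i
    have := i.isLt
    rcases hK with ⟨h, _⟩ | ⟨h, hβ⟩
    · left; omega
    · by_cases hi : (i : ℕ) < 2 * M
      · exact Or.inl hi
      · exact Or.inr ⟨by omega, hβ⟩
  have hdom' : ∀ i : Fin K, (i : ℕ) < 2 * M ∨ β := fun i => (hdom i).imp id (fun h => h.2)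
  let f : Fin K → {D : Finset (Option (Z M)) // IsIRSet (G M β) D} :=
    fun i => ⟨fs M i, fs_irset hM β i (hdom' i)⟩
  have hf : Function.Bijective f := by
    constructor
    · intro i j h
      apply Fin.ext
      have hi := i.isLt
      have hj := j.isLt
      exact fs_inj hM i j (by omega) (by omega) (congrArg Subtype.val h)
    · rintro ⟨T, hT⟩
      obtain ⟨k, hk, h⟩ := fs_surj hM β T hT
      have hkK : k < K := by
        rcases hK with ⟨h1, h2⟩ | ⟨h1, h2⟩
        · rcases hk with h3 | ⟨_, h3⟩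
          · omega
          · exact absurd h3 h2
        · omega
      exact ⟨⟨k, hkK⟩, Subtype.ext h⟩
  refine ⟨RelIso.symm ⟨Equiv.ofBijective f hf, ?_⟩⟩
  intro i j
  show Slides (G M β) (fs M i) (fs M j) ↔ _
  rw [fs_slides hM β i j (hdom i) (hdom j), SimpleGraph.pathGraph_adj]

end Pool.Agent.R47.IRPathGen
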