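import Pool.Agent.R47.IRPath

/-!
Small paths which are IR-graphs.
-/

namespace Pool.Agent.R47.IRPath

section CheckPath

variable {m : ℕ}

/-- Graph from closed neighbourhood masks. -/
def mkG (N : Fin m → ℕ) : SimpleGraph (Fin m) where
  Adj v w := v ≠ w ∧ (N v).testBit w.val = true ∧ (N w).testBit v.val = true
  symm := ⟨fun _ _ h => ⟨h.1.symm, h.2.2, h.2.1⟩⟩
  loopless := ⟨fun _ h => h.1 rfl⟩

theorem checkPath (N : Fin m → ℕ)
    (hsym : ∀ v w, (N v).testBit w.val = (N w).testBit v.val)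
    (hself : ∀ v, (N v).testBit v.val = true)
    (hlt : ∀ v, N v < 2 ^ m) (c k : ℕ) (hk : 0 < k)
    (sets : Fin k → List (Fin m))
    (h1 : ∀ l ∈ List.sublistsLen (c + 1) (List.finRange m), irrM N l = false)
    (h2 : ∀ l ∈ List.sublistsLen c (List.finRange m), irrM N l = true → ∃ i, sets i = l)
    (h3 : ∀ i, irrM N (sets i) = true ∧ sets i ∈ List.sublistsLen c (List.finRange m))
    (h4 : ∀ i j, sets i = sets j → i = j)
    (h5 : ∀ i j, slB N (sets i) (sets j) ↔ (i.val + 1 = j.val ∨ j.val + 1 = i.val)) :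
    Nonempty (IRGraph (mkG N) ≃g SimpleGraph.pathGraph k) := by
  apply check N (mkG N) ?_ hlt c k _ hk sets h1 h2 h3 h4
  · intro i j
    rw [h5, SimpleGraph.pathGraph_adj]
  · intro v w
    show _ ↔ (w = v ∨ (v ≠ w ∧ (N v).testBit w.val = true ∧ (N w).testBit v.val = true))
    rw [hsym w v]
    by_cases h : w = v
    · subst h; simp [hself]
    · have h' : v ≠ w := fun h2 => h h2.symm
      simp [h, h']

end CheckPath

def N7 : Fin 10 → ℕ := ![481, 986, 956, 862, 702, 757, 875, 695, 847, 1022]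

def S7 : Fin 7 → List (Fin 10) := ![[1, 3, 6], [1, 6, 8], [0, 1, 8], [0, 1, 2], [0, 2, 7], [2, 5, 7], [2, 4, 5]]

set_option maxRecDepth 100000 in
lemma path7 : Nonempty (IRGraph (mkG N7) ≃g SimpleGraph.pathGraph 7) := by
  apply checkPath N7 (by decide +kernel) (by decide +kernel) (by decide +kernel) 3 7
    (by norm_num) S7
  · decide +kernel
  · decide +kernel
  · decide +kernel
  · decide +kernel
  · decide +kernel

def N8 : Fin 10 → ℕ := ![993, 978, 956, 892, 702, 381, 491, 727, 367, 671]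

def S8 : Fin 8 → List (Fin 10) := ![[0, 5, 6], [0, 5, 8], [0, 3, 8], [0, 1, 3], [0, 1, 2], [1, 2, 9], [1, 4, 9], [1, 4, 7]]

set_option maxRecDepth 100000 in
lemma path8 : Nonempty (IRGraph (mkG N8) ≃g SimpleGraph.pathGraph 8) := by
  apply checkPath N8 (by decide +kernel) (by decide +kernel) (by decide +kernel) 3 8
    (by norm_num) S8
  · decide +kernel
  · decide +kernel
  · decide +kernel
  · decide +kernel
  · decide +kernel

def N9 : Fin 10 → ℕ := ![913, 874, 732, 366, 725, 1002, 254, 501, 939, 823]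

def S9 : Fin 9 → List (Fin 10) := ![[0, 2, 5], [0, 1, 2], [0, 1, 9], [1, 8, 9], [3, 8, 9], [3, 7, 9], [2, 3, 7], [2, 6, 7], [4, 6, 7]]

set_option maxRecDepth 100000 in
lemma path9 : Nonempty (IRGraph (mkG N9) ≃g SimpleGraph.pathGraph 9) := by
  apply checkPath N9 (by decide +kernel) (by decide +kernel) (by decide +kernel) 3 9
    (by norm_num) S9
  · decide +kernel
  · decide +kernel
  · decide +kernel
  · decide +kernel
  · decide +kernel

def N10 : Fin 10 → ℕ := ![961, 946, 636, 380, 574, 190, 461, 995, 971, 919]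

def S10 : Fin 10 → List (Fin 10) := ![[0, 1, 3], [0, 1, 2], [0, 1, 9], [1, 8, 9], [7, 8, 9], [6, 7, 9], [5, 6, 9], [2, 5, 6], [2, 3, 5], [3, 4, 5]]

set_option maxRecDepth 100000 in
lemma path10 : Nonempty (IRGraph (mkG N10) ≃g SimpleGraph.pathGraph 10) := by
  apply checkPath N10 (by decide +kernel) (by decide +kernel) (by decide +kernel) 3 10
    (by norm_num) S10
  · decide +kernel
  · decide +kernel
  · decide +kernel
  · decide +kernel
  · decide +kernel

def N11 : Fin 10 → ℕ := ![977, 970, 828, 686, 437, 764, 995, 507, 983, 879]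

def S11 : Fin 11 → List (Fin 10) := ![[0, 4, 7], [4, 6, 7], [3, 4, 6], [3, 4, 5], [2, 3, 5], [2, 3, 9], [1, 2, 9], [0, 1, 2], [0, 1, 5], [0, 1, 6], [1, 6, 8]]

set_option maxRecDepth 100000 in
lemma path11 : Nonempty (IRGraph (mkG N11) ≃g SimpleGraph.pathGraph 11) := by
  apply checkPath N11 (by decide +kernel) (by decide +kernel) (by decide +kernel) 3 11
    (by norm_num) S11
  · decide +kernel
  · decide +kernel
  · decide +kernel
  · decide +kernel
  · decide +kernel

def N12 : Fin 10 → ℕ := ![433, 970, 380, 846, 693, 629, 750, 979, 911, 1018]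

def S12 : Fin 12 → List (Fin 10) := ![[0, 2, 5], [0, 2, 9], [0, 1, 2], [0, 1, 8], [0, 7, 8], [4, 7, 8], [4, 6, 8], [2, 4, 6], [2, 5, 6], [3, 5, 6], [3, 5, 7], [3, 7, 9]]

set_option maxRecDepth 100000 in
lemma path12 : Nonempty (IRGraph (mkG N12) ≃g SimpleGraph.pathGraph 12) := by
  apply checkPath N12 (by decide +kernel) (by decide +kernel) (by decide +kernel) 3 12
    (by norm_num) S12
  · decide +kernel
  · decide +kernel
  · decide +kernel
  · decide +kernel
  · decide +kernel

def N13 : Fin 10 → ℕ := ![545, 274, 236, 220, 666, 357, 876, 924, 994, 977]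

def S13 : Fin 13 → List (Fin 10) := ![[0, 2, 4, 8], [0, 2, 4, 7], [0, 3, 4, 7], [0, 3, 4, 9], [0, 4, 7, 9], [0, 1, 7, 9], [0, 1, 6, 7], [0, 1, 6, 8], [1, 5, 6, 8], [1, 2, 5, 8], [1, 2, 5, 6], [1, 3, 5, 6], [1, 3, 5, 9]]

set_option maxRecDepth 100000 in
lemma path13 : Nonempty (IRGraph (mkG N13) ≃g SimpleGraph.pathGraph 13) := by
  apply checkPath N13 (by decide +kernel) (by decide +kernel) (by decide +kernel) 4 13
    (by norm_num) S13
  · decide +kernel
  · decide +kernel
  · decide +kernel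
  · decide +kernel
  · decide +kernel

def N14 : Fin 11 → ℕ := ![1457, 1994, 1404, 1870, 1717, 1653, 1774, 979, 1935, 1018, 1407]

def S14 : Fin 14 → List (Fin 11) := ![[0, 5, 10], [0, 2, 5], [0, 2, 9], [0, 1, 2], [0, 1, 8], [0, 7, 8], [4, 7, 8], [4, 6, 8], [2, 4, 6], [2, 5, 6], [3, 5, 6], [3, 5, 7], [3, 7, 9], [1, 7, 9]]

set_option maxRecDepth 100000 in
lemma path14 : Nonempty (IRGraph (mkG N14) ≃g SimpleGraph.pathGraph 14) := by
  apply checkPath N14 (by decide +kernel) (by decide +kernel) (by decide +kernel) 3 14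
    (by norm_num) S14
  · decide +kernel
  · decide +kernel
  · decide +kernel
  · decide +kernel
  · decide +kernel

def N15 : Fin 12 → ℕ := ![3617, 3346, 236, 220, 1690, 2405, 1900, 2972, 2018, 3025, 3411, 3747]

def S15 : Fin 15 → List (Fin 12) := ![[2, 4, 8, 11], [0, 2, 4, 8], [0, 2, 4, 7], [0, 3, 4, 7], [0, 3, 4, 9], [0, 4, 7, 9], [0, 1, 7, 9], [0, 1, 6, 7], [0, 1, 6, 8], [1, 5, 6, 8], [1, 2, 5, 8], [1, 2, 5, 6], [1, 3, 5, 6], [1, 3, 5, 9], [3, 5, 9, 10]]

set_option maxRecDepth 100000 in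
lemma path15 : Nonempty (IRGraph (mkG N15) ≃g SimpleGraph.pathGraph 15) := by
  apply checkPath N15 (by decide +kernel) (by decide +kernel) (by decide +kernel) 4 15
    (by norm_num) S15
  · decide +kernel
  · decide +kernel
  · decide +kernel
  · decide +kernel
  · decide +kernel

end Pool.Agent.R47.IRPath
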