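import Mathlib

/-!
# The odd independence number of hypercubes
-/

set_option autoImplicit false

open Finset

namespace Pool.Agent.R47.OddCube

/-- `S` is odd independent: it is independent, and every vertex outside `S` has either no
neighbour in `S` or an odd number of them. -/
def IsOddIndep {V : Type*} (G : SimpleGraph V) (S : Finset V) : Prop :=
  G.IsIndepSet (S : Set V) ∧
    ∀ v, v ∉ S → {u | G.Adj v u ∧ u ∈ S} = ∅ ∨ Odd {u | G.Adj v u ∧ u ∈ S}.ncard

/-- The odd independence number: the largest size of an odd independent set. -/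
noncomputable def alphaOd {V : Type*} (G : SimpleGraph V) : ℕ :=
  sSup {k | ∃ S : Finset V, IsOddIndep G S ∧ S.card = k}

/-- The hypercube `Q_d` on `{0,1}^d`: two vertices are adjacent iff they differ in exactly one
coordinate. -/
def cube (d : ℕ) : SimpleGraph (Fin d → ZMod 2) where
  Adj x y := hammingDist x y = 1
  symm := ⟨fun x y h => by rw [hammingDist_comm]; exact h⟩
  loopless := ⟨fun x h => by rw [hammingDist_self] at h; exact zero_ne_one h⟩

variable {d : ℕ}

/-- Unit vector. -/
def e (i : Fin d) : Fin d → ZMod 2 := Pi.single i 1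

/-- Parity of a vertex. -/
def par (x : Fin d → ZMod 2) : ZMod 2 := ∑ i, x i

theorem add_self (x : Fin d → ZMod 2) : x + x = 0 := by
  funext i
  exact CharTwo.add_self_eq_zero (x i)

theorem par_add (x y : Fin d → ZMod 2) : par (x + y) = par x + par y := by
  simp [par, sum_add_distrib]

theorem par_e (i : Fin d) : par (e i) = 1 := by
  simp [par, e]

theorem par_add_e (x : Fin d → ZMod 2) (i : Fin d) : par (x + e i) = par x + 1 := by
  rw [par_add, par_e]

theorem add_e_add_e (x : Fin d → ZMod 2) (i : Fin d) : x + e i + e i = x := by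
  rw [add_assoc, add_self, add_zero]

theorem e_inj {i j : Fin d} (h : e i = e j) : i = j := by
  by_contra hij
  have := congrFun h i
  simp only [e, Pi.single_eq_same, Pi.single_eq_of_ne hij] at this
  exact one_ne_zero this

theorem adj_iff (x y : Fin d → ZMod 2) : (cube d).Adj x y ↔ ∃ i, y = x + e i := by
  have key : ∀ a b : ZMod 2, a ≠ b → b = a + 1 := by decide
  constructor
  · intro h
    have h' : (univ.filter fun i => x i ≠ y i).card = 1 := h
    obtain ⟨i, hi⟩ := card_eq_one.1 h'
    refine ⟨i, funext fun j => ?_⟩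
    by_cases hj : j = i
    · subst hj
      have : x j ≠ y j := by
        have : j ∈ univ.filter fun i => x i ≠ y i := by rw [hi]; exact mem_singleton_self j
        exact (mem_filter.1 this).2
      rw [key _ _ this]
      simp [e]
    · have : ¬ x j ≠ y j := by
        intro hne
        have : j ∈ univ.filter fun i => x i ≠ y i := mem_filter.2 ⟨mem_univ _, hne⟩
        rw [hi, mem_singleton] at this
        exact hj this
      push Not at this
      simp [e, hj, this]
  · rintro ⟨i, rfl⟩
    show (univ.filter fun j => x j ≠ (x + e i) j).card = 1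
    have : (univ.filter fun j => x j ≠ (x + e i) j) = {i} := by
      ext j
      rw [mem_filter, mem_singleton]
      by_cases hj : j = i
      · subst hj
        simp [e]
      · simp [e, hj]
    rw [this, card_singleton]

theorem ncard_nbr (v : Fin d → ZMod 2) (X : Finset (Fin d → ZMod 2)) :
    {u | (cube d).Adj v u ∧ u ∈ X}.ncard = (univ.filter fun i => v + e i ∈ X).card := by
  have : {u | (cube d).Adj v u ∧ u ∈ X} =
      (((univ.filter fun i => v + e i ∈ X).image fun i => v + e i : Finset _) :
        Set (Fin d → ZMod 2)) := by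
    ext u
    rw [mem_coe, mem_image]
    constructor
    · rintro ⟨h1, h2⟩
      obtain ⟨i, rfl⟩ := (adj_iff v u).1 h1
      exact ⟨i, mem_filter.2 ⟨mem_univ _, h2⟩, rfl⟩
    · rintro ⟨i, hi, rfl⟩
      exact ⟨(adj_iff _ _).2 ⟨i, rfl⟩, (mem_filter.1 hi).2⟩
  rw [this, Set.ncard_coe_finset, card_image_of_injective]
  intro i j hij
  exact e_inj (add_left_cancel hij)

theorem alphaOd_bddAbove {V : Type*} [Fintype V] (G : SimpleGraph V) :
    BddAbove {k | ∃ S : Finset V, IsOddIndep G S ∧ S.card = k} := by
  refine ⟨Fintype.card V, ?_⟩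
  rintro k ⟨S, -, rfl⟩
  exact card_le_univ S

/-! ### Lower bound -/

theorem exists_odd_fibres {W : Type*} [Fintype W] [DecidableEq W] (w0 : W) (d k : ℕ)
    (hd : d = Fintype.card W + 2 * k) :
    ∃ g : Fin d → W, ∀ w, Odd (univ.filter fun i => g i = w).card := by
  classical
  have hcard : Fintype.card (W ⊕ (Fin k ⊕ Fin k)) = d := by
    rw [Fintype.card_sum, Fintype.card_sum, Fintype.card_fin]
    omega
  let ε : W ⊕ (Fin k ⊕ Fin k) ≃ Fin d := Fintype.equivFinOfCardEq hcard
  let f : W ⊕ (Fin k ⊕ Fin k) → W := Sum.elim id (fun _ => w0)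
  refine ⟨fun i => f (ε.symm i), fun w => ?_⟩
  have h1 : (univ.filter fun i => f (ε.symm i) = w).card =
      (univ.filter fun j : W ⊕ (Fin k ⊕ Fin k) => f j = w).card := by
    refine card_equiv ε.symm ?_
    intro i
    simp
  rw [h1]
  have h2 : (univ.filter fun j : W ⊕ (Fin k ⊕ Fin k) => f j = w).card =
      (univ.filter fun j : W => j = w).card +
        (univ.filter fun _ : Fin k ⊕ Fin k => w0 = w).card := by
    rw [← card_disjSum, ← univ_disjSum_univ]
    congr 1
    ext j
    rcases j with j | j
    · simp [f]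
    · by_cases hw : w0 = w <;> simp [f, hw]
  rw [h2]
  have h3 : (univ.filter fun j : W => j = w).card = 1 := by
    rw [filter_eq' , if_pos (mem_univ _), card_singleton]
  rw [h3]
  by_cases hw : w0 = w
  · simp only [hw, filter_true, card_univ, Fintype.card_sum, Fintype.card_fin]
    exact ⟨k, by omega⟩
  · simp [hw]

theorem lower (m : ℕ) (hm : 1 ≤ m) (hmd : 2 ^ m ≤ d) (hd : Even d) :
    (2 ^ m - 1) * 2 ^ (d - 1 - m) ≤ alphaOd (cube d) := by
  classical
  let W := Fin m → ZMod 2
  have hcW : Fintype.card W = 2 ^ m := by simp [W, ZMod.card]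
  obtain ⟨g, hg⟩ : ∃ g : Fin d → W, ∀ w, Odd (univ.filter fun i => g i = w).card := by
    apply exists_odd_fibres (0 : W) d ((d - 2 ^ m) / 2)
    rw [hcW]
    have h1 : Even (2 ^ m) := (Nat.even_pow.2 ⟨even_two, by omega⟩)
    have h2 : Even (d - 2 ^ m) := (Nat.even_sub hmd).2 ⟨fun _ => h1, fun _ => hd⟩
    obtain ⟨c, hc⟩ := h2
    omega
  let φ : (Fin d → ZMod 2) →+ ZMod 2 × W :=
    { toFun := fun x => (par x, ∑ i, x i • g i)
      map_zero' := by simp [par]
      map_add' := fun x y => by
        simp [par_add, add_smul, sum_add_distrib] }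
  have hφe : ∀ i, φ (e i) = (1, g i) := by
    intro i
    show (par (e i), ∑ j, (e i : Fin d → ZMod 2) j • g j) = (1, g i)
    rw [par_e]
    congr 1
    rw [sum_eq_single i]
    · simp [e]
    · intro j _ hj
      simp [e, hj]
    · intro h
      exact absurd (mem_univ i) h
  have hnon : ∀ w, ∃ i, g i = w := by
    intro w
    have h1 := hg w
    have h2 : (univ.filter fun i => g i = w).Nonempty := by
      rw [← card_pos]
      exact h1.pos
    obtain ⟨i, hi⟩ := h2
    exact ⟨i, (mem_filter.1 hi).2⟩
  have hsurj : Function.Surjective φ := by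
    rintro ⟨a, w⟩
    obtain ⟨i, hi⟩ := hnon w
    obtain ⟨j, hj⟩ := hnon 0
    have ha : a = 0 ∨ a = 1 := by
      revert a
      decide
    rcases ha with rfl | rfl
    · refine ⟨e i + e j, ?_⟩
      rw [map_add, hφe, hφe, hi, hj, Prod.mk_add_mk, add_zero, CharTwo.add_self_eq_zero]
    · exact ⟨e i, by rw [hφe, hi]⟩
  -- fibres
  have hfib : ∀ b : ZMod 2 × W, (univ.filter fun x => φ x = b).card =
      (univ.filter fun x => φ x = 0).card := by
    intro b
    exact AddMonoidHom.card_fiber_eq_of_mem_range φ (hsurj b) (hsurj 0)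
  have htot : ∀ B : Finset (ZMod 2 × W), (univ.filter fun x => φ x ∈ B).card =
      B.card * (univ.filter fun x => φ x = 0).card := by
    intro B
    have h1 : (univ.filter fun x => φ x ∈ B).card =
        ∑ b ∈ B, ((univ.filter fun x => φ x ∈ B).filter fun x => φ x = b).card :=
      card_eq_sum_card_fiberwise (fun x hx => by simpa using hx)
    rw [h1]
    have h2 : ∀ b ∈ B, ((univ.filter fun x => φ x ∈ B).filter fun x => φ x = b).card =
        (univ.filter fun x => φ x = 0).card := by
      intro b hb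
      rw [← hfib b, filter_filter]
      congr 1
      ext x
      simp only [mem_filter, mem_univ, true_and]
      constructor
      · exact fun h => h.2
      · intro h
        exact ⟨h ▸ hb, h⟩
    rw [sum_congr rfl h2, sum_const, smul_eq_mul]
  have hker : (univ.filter fun x => φ x = 0).card = 2 ^ (d - 1 - m) := by
    have h1 := htot univ
    simp only [mem_univ, filter_true] at h1
    have hmd' : m + 1 ≤ d := by
      have : m < 2 ^ m := Nat.lt_two_pow_self
      omega
    have hV : (univ : Finset (Fin d → ZMod 2)).card = 2 ^ d := by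
      rw [card_univ]; simp [ZMod.card]
    have hB : (univ : Finset (ZMod 2 × W)).card = 2 ^ (m + 1) := by
      rw [card_univ, Fintype.card_prod, hcW, ZMod.card, pow_succ]
      ring
    rw [hV, hB] at h1
    have h2 : 2 ^ d = 2 ^ (m + 1) * 2 ^ (d - 1 - m) := by
      rw [← pow_add]
      congr 1
      omega
    rw [h2] at h1
    exact (Nat.eq_of_mul_eq_mul_left (by positivity) h1).symm
  -- the set
  let B : Finset (ZMod 2 × W) := univ.filter fun b => b.1 = 0 ∧ b.2 ≠ 0
  have hBc : B.card = 2 ^ m - 1 := by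
    have : B = ((univ : Finset W).erase 0).map ⟨fun w => ((0 : ZMod 2), w), fun a b h => by
        simpa using h⟩ := by
      ext ⟨a, w⟩
      simp only [B, mem_filter, mem_univ, true_and, mem_map, mem_erase]
      constructor
      · rintro ⟨h1, h2⟩
        refine ⟨w, ⟨h2, trivial⟩, ?_⟩
        rw [h1]
        rfl
      · rintro ⟨w', ⟨h2, -⟩, h3⟩
        have h4 : (0 : ZMod 2) = a := congrArg Prod.fst h3
        have h5 : w' = w := congrArg Prod.snd h3
        exact ⟨h4.symm, h5 ▸ h2⟩
    rw [this, card_map, card_erase_of_mem (mem_univ _), card_univ, hcW]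
  let S : Finset (Fin d → ZMod 2) := univ.filter fun x => φ x ∈ B
  have hS : S.card = (2 ^ m - 1) * 2 ^ (d - 1 - m) := by
    show (univ.filter fun x => φ x ∈ B).card = _
    rw [htot B, hBc, hker]
  have hmemS : ∀ x, x ∈ S ↔ par x = 0 ∧ (φ x).2 ≠ 0 := by
    intro x
    simp only [S, B, mem_filter, mem_univ, true_and]
    exact Iff.rfl
  refine le_csSup (alphaOd_bddAbove _) ⟨S, ⟨?_, ?_⟩, hS⟩
  · intro x hx y hy _ hadj
    obtain ⟨i, rfl⟩ := (adj_iff _ _).1 hadj
    have h1 := ((hmemS _).1 (mem_coe.1 hx)).1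
    have h2 := ((hmemS _).1 (mem_coe.1 hy)).1
    rw [par_add_e, h1, zero_add] at h2
    exact one_ne_zero h2
  · intro v hv
    have hpar : par v = 0 ∨ par v = 1 := by
      generalize par v = a
      revert a
      decide
    rcases hpar with hpar | hpar
    · left
      rw [Set.eq_empty_iff_forall_notMem]
      rintro u ⟨hadj, hu⟩
      obtain ⟨i, rfl⟩ := (adj_iff _ _).1 hadj
      have h2 := ((hmemS _).1 hu).1
      rw [par_add_e, hpar, zero_add] at h2
      exact one_ne_zero h2
    · right
      rw [ncard_nbr]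
      have h1 : (univ.filter fun i => v + e i ∈ S) =
          univ.filter fun i => ¬ g i = (φ v).2 := by
        ext i
        simp only [mem_filter, mem_univ, true_and]
        rw [hmemS, par_add_e, hpar, map_add, hφe]
        have h2 : (1 : ZMod 2) + 1 = 0 := by decide
        simp only [h2, true_and, Prod.snd_add, ne_eq]
        rw [not_iff_not]
        constructor
        · intro h
          have h3 : g i = (φ v).2 + ((φ v).2 + g i) := by
            rw [← add_assoc, add_self, zero_add]
          rw [h3, h, add_zero]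
        · intro h
          rw [h]
          exact add_self _
      rw [h1, filter_not, card_sdiff_of_subset (filter_subset _ _), card_univ, Fintype.card_fin]
      have h3 := hg (φ v).2
      have h4 : (univ.filter fun i => g i = (φ v).2).card ≤ d := by
        refine le_trans (card_le_univ _) (by rw [Fintype.card_fin])
      obtain ⟨a, ha⟩ := hd
      obtain ⟨b, hb⟩ := h3
      exact ⟨a - b - 1, by omega⟩

/-! ### Upper bound -/

/-- First `i` coordinates from `y`, the others from `x`. -/
def mix (i : ℕ) (x y : Fin d → ZMod 2) : Fin d → ZMod 2 := fun j => if (j : ℕ) < i then y j else x j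

theorem mix_zero (x y : Fin d → ZMod 2) : mix 0 x y = x := by
  funext j
  simp [mix]

theorem mix_last (x y : Fin d → ZMod 2) : mix d x y = y := by
  funext j
  simp [mix]

theorem mix_mix (i : ℕ) (x y : Fin d → ZMod 2) : mix i (mix i x y) (mix i y x) = x := by
  funext j
  unfold mix
  split <;> simp_all

theorem mix_succ (i : Fin d) (x y : Fin d → ZMod 2) :
    mix (i + 1) x y = Function.update (mix i x y) i (mix i y x i) := by
  funext j
  by_cases hj : j = i
  · subst hj
    simp [mix]
  · rw [Function.update_of_ne hj]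
    have : (j : ℕ) ≠ i := fun h => hj (Fin.ext h)
    simp only [mix]
    by_cases h : (j : ℕ) < i
    · rw [if_pos (by omega), if_pos h]
    · rw [if_neg (by omega), if_neg h]

/-- Indicator of a boundary pair. -/
def dd (X : Finset (Fin d → ZMod 2)) (x y : Fin d → ZMod 2) : ℕ :=
  if (x ∈ X ↔ y ∈ X) then 0 else 1

theorem dd_self (X : Finset (Fin d → ZMod 2)) (x : Fin d → ZMod 2) : dd X x x = 0 := by
  simp [dd]

theorem dd_tri (X : Finset (Fin d → ZMod 2)) (x y z : Fin d → ZMod 2) :
    dd X x z ≤ dd X x y + dd X y z := by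
  unfold dd
  by_cases hx : x ∈ X <;> by_cases hy : y ∈ X <;> by_cases hz : z ∈ X <;> simp [hx, hy, hz]

theorem dd_path (X : Finset (Fin d → ZMod 2)) (x y : Fin d → ZMod 2) (k : ℕ) (hk : k ≤ d) :
    dd X x (mix k x y) ≤ ∑ i ∈ range k, dd X (mix i x y) (mix (i + 1) x y) := by
  induction k with
  | zero => rw [mix_zero, dd_self]; exact Nat.zero_le _
  | succ k ih =>
    rw [sum_range_succ]
    exact le_trans (dd_tri X x (mix k x y) _) (Nat.add_le_add_right (ih (by omega)) _)

theorem dd_sum_le (X : Finset (Fin d → ZMod 2)) (x y : Fin d → ZMod 2) :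
    dd X x y ≤ ∑ i : Fin d, dd X (mix i x y) (Function.update (mix i x y) i (mix i y x i)) := by
  have h := dd_path X x y d le_rfl
  rw [mix_last, sum_range] at h
  refine le_trans h (le_of_eq (sum_congr rfl fun i _ => ?_))
  rw [mix_succ]

theorem sum_w (X : Finset (Fin d → ZMod 2)) (u : Fin d → ZMod 2) (i : Fin d) :
    2 * ∑ w : Fin d → ZMod 2, dd X u (Function.update u i (w i)) = 2 ^ d * dd X u (u + e i) := by
  have h1 : ∑ w : Fin d → ZMod 2, dd X u (Function.update u i (w i)) =
      ∑ w : Fin d → ZMod 2, dd X u (Function.update u i ((w + e i) i)) :=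
    (Equiv.sum_comp (Equiv.addRight (e i)) (fun w => dd X u (Function.update u i (w i)))).symm
  rw [two_mul]
  nth_rewrite 2 [h1]
  rw [← sum_add_distrib]
  have h2 : ∀ w : Fin d → ZMod 2, dd X u (Function.update u i (w i)) +
      dd X u (Function.update u i ((w + e i) i)) = dd X u (u + e i) := by
    intro w
    have h3 : Function.update u i (u i) = u := Function.update_eq_self i u
    have h4 : Function.update u i (u i + 1) = u + e i := by
      funext j
      by_cases hj : j = i
      · subst hj
        simp [e]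
      · simp [e, hj]
    have h5 : (w + e i) i = w i + 1 := by simp [e]
    rw [h5]
    have key : ∀ a b : ZMod 2, a = b ∨ a = b + 1 := by decide
    rcases key (w i) (u i) with h | h
    · rw [h, h3, h4, dd_self, zero_add]
    · have h6 : u i + 1 + 1 = u i := by
        rw [add_assoc, show (1 : ZMod 2) + 1 = 0 by decide, add_zero]
      rw [h, h6, h3, h4, dd_self, add_zero]
  rw [sum_congr rfl fun w _ => h2 w, sum_const, card_univ, smul_eq_mul]
  simp [ZMod.card]

theorem poincare (X : Finset (Fin d → ZMod 2)) :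
    2 * ∑ x : Fin d → ZMod 2, ∑ y : Fin d → ZMod 2, dd X x y ≤
      2 ^ d * ∑ u : Fin d → ZMod 2, ∑ i : Fin d, dd X u (u + e i) := by
  have h1 : ∑ x : Fin d → ZMod 2, ∑ y : Fin d → ZMod 2, dd X x y ≤
      ∑ x : Fin d → ZMod 2, ∑ y : Fin d → ZMod 2,
        ∑ i : Fin d, dd X (mix i x y) (Function.update (mix i x y) i (mix i y x i)) :=
    sum_le_sum fun x _ => sum_le_sum fun y _ => dd_sum_le X x y
  have h2 : ∑ x : Fin d → ZMod 2, ∑ y : Fin d → ZMod 2,
        ∑ i : Fin d, dd X (mix i x y) (Function.update (mix i x y) i (mix i y x i)) =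
      ∑ i : Fin d, ∑ u : Fin d → ZMod 2, ∑ w : Fin d → ZMod 2,
        dd X u (Function.update u i (w i)) := by
    have h3 : ∀ i : Fin d, ∑ x : Fin d → ZMod 2, ∑ y : Fin d → ZMod 2,
        dd X (mix i x y) (Function.update (mix i x y) i (mix i y x i)) =
        ∑ u : Fin d → ZMod 2, ∑ w : Fin d → ZMod 2, dd X u (Function.update u i (w i)) := by
      intro i
      let E : (Fin d → ZMod 2) × (Fin d → ZMod 2) ≃ (Fin d → ZMod 2) × (Fin d → ZMod 2) :=
        { toFun := fun p => (mix i p.1 p.2, mix i p.2 p.1)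
          invFun := fun p => (mix i p.1 p.2, mix i p.2 p.1)
          left_inv := fun p => by
            show (mix i (mix i p.1 p.2) (mix i p.2 p.1), mix i (mix i p.2 p.1) (mix i p.1 p.2)) = p
            rw [mix_mix, mix_mix]
          right_inv := fun p => by
            show (mix i (mix i p.1 p.2) (mix i p.2 p.1), mix i (mix i p.2 p.1) (mix i p.1 p.2)) = p
            rw [mix_mix, mix_mix] }
      rw [← Fintype.sum_prod_type', ← Fintype.sum_prod_type']
      exact Equiv.sum_comp E (fun p => dd X p.1 (Function.update p.1 i (p.2 i)))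
    rw [← sum_congr rfl fun i _ => h3 i]
    symm
    rw [sum_comm]
    refine sum_congr rfl fun x _ => ?_
    rw [sum_comm]
  calc 2 * ∑ x : Fin d → ZMod 2, ∑ y : Fin d → ZMod 2, dd X x y
      ≤ 2 * ∑ i : Fin d, ∑ u : Fin d → ZMod 2, ∑ w : Fin d → ZMod 2,
        dd X u (Function.update u i (w i)) := by
        rw [← h2]
        exact Nat.mul_le_mul_left 2 h1
    _ = ∑ i : Fin d, ∑ u : Fin d → ZMod 2, 2 ^ d * dd X u (u + e i) := by
        rw [mul_sum]
        refine sum_congr rfl fun i _ => ?_
        rw [mul_sum]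
        exact sum_congr rfl fun u _ => sum_w X u i
    _ = 2 ^ d * ∑ u : Fin d → ZMod 2, ∑ i : Fin d, dd X u (u + e i) := by
        rw [sum_comm, mul_sum]
        exact sum_congr rfl fun u _ => by rw [mul_sum]

/-- The number of `i` with `v + e i ∈ A`. -/
def cnt (A : Finset (Fin d → ZMod 2)) (v : Fin d → ZMod 2) : ℕ :=
  (univ.filter fun i => v + e i ∈ A).card

theorem swap (A B : Finset (Fin d → ZMod 2)) : ∑ v ∈ A, cnt B v = ∑ u ∈ B, cnt A u := by
  have h : ∀ A B : Finset (Fin d → ZMod 2), ∑ v ∈ A, cnt B v =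
      ∑ i : Fin d, ∑ v : Fin d → ZMod 2, if (v ∈ A ∧ v + e i ∈ B) then 1 else 0 := by
    intro A B
    rw [sum_comm, ← sum_filter_add_sum_filter_not univ (fun v => v ∈ A)]
    have h1 : ∑ v ∈ univ.filter (fun v => v ∉ A), ∑ i : Fin d,
        (if (v ∈ A ∧ v + e i ∈ B) then 1 else 0) = 0 := by
      apply sum_eq_zero
      intro v hv
      apply sum_eq_zero
      intro i _
      rw [if_neg (fun h => (mem_filter.1 hv).2 h.1)]
    rw [h1, add_zero]
    have h2 : univ.filter (fun v => v ∈ A) = A := by
      ext v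
      simp
    rw [h2]
    refine sum_congr rfl fun v hv => ?_
    rw [cnt, card_filter]
    refine sum_congr rfl fun i _ => ?_
    simp [hv]
  rw [h A B, h B A]
  refine sum_congr rfl fun i _ => ?_
  rw [← Equiv.sum_comp (Equiv.addRight (e i))]
  refine sum_congr rfl fun v _ => ?_
  show (if (v + e i ∈ A ∧ v + e i + e i ∈ B) then 1 else 0) = _
  rw [add_e_add_e]
  by_cases h1 : v + e i ∈ A <;> by_cases h2 : v ∈ B <;> simp [h1, h2]

theorem cnt_le (A : Finset (Fin d → ZMod 2)) (v : Fin d → ZMod 2) : cnt A v ≤ d := by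
  refine le_trans (card_le_univ _) (by rw [Fintype.card_fin])

/-- Edge-isoperimetric inequality for sets of at most half the cube. -/
theorem boundary_ge (X : Finset (Fin d → ZMod 2)) (hX : 2 * X.card ≤ 2 ^ d) :
    X.card ≤ ∑ x ∈ X, cnt Xᶜ x := by
  have h := poincare X
  have h1 : ∑ u : Fin d → ZMod 2, ∑ i : Fin d, dd X u (u + e i) = 2 * ∑ x ∈ X, cnt Xᶜ x := by
    rw [← sum_add_sum_compl X]
    have h2 : ∑ u ∈ X, ∑ i : Fin d, dd X u (u + e i) = ∑ x ∈ X, cnt Xᶜ x := by
      refine sum_congr rfl fun u hu => ?_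
      rw [cnt, card_filter]
      refine sum_congr rfl fun i _ => ?_
      by_cases hi : u + e i ∈ X <;> simp [dd, hu, hi]
    have h3 : ∑ u ∈ Xᶜ, ∑ i : Fin d, dd X u (u + e i) = ∑ x ∈ Xᶜ, cnt X x := by
      refine sum_congr rfl fun u hu => ?_
      rw [mem_compl] at hu
      rw [cnt, card_filter]
      refine sum_congr rfl fun i _ => ?_
      by_cases hi : u + e i ∈ X <;> simp [dd, hu, hi]
    rw [h2, h3, swap Xᶜ X]
    ring
  have h4 : ∑ x : Fin d → ZMod 2, ∑ y : Fin d → ZMod 2, dd X x y = 2 * (X.card * Xᶜ.card) := by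
    rw [← sum_add_sum_compl X]
    have h2 : ∀ u ∈ X, ∑ y : Fin d → ZMod 2, dd X u y = Xᶜ.card := by
      intro u hu
      rw [← sum_add_sum_compl X]
      have h5 : ∑ y ∈ X, dd X u y = 0 := sum_eq_zero fun y hy => by simp [dd, hu, hy]
      have h6 : ∑ y ∈ Xᶜ, dd X u y = ∑ y ∈ Xᶜ, 1 := sum_congr rfl fun y hy => by
        rw [mem_compl] at hy
        simp [dd, hu, hy]
      rw [h5, h6, zero_add]
      simp
    have h3 : ∀ u ∈ Xᶜ, ∑ y : Fin d → ZMod 2, dd X u y = X.card := by
      intro u hu
      rw [mem_compl] at hu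
      rw [← sum_add_sum_compl X]
      have h5 : ∑ y ∈ X, dd X u y = ∑ y ∈ X, 1 := sum_congr rfl fun y hy => by simp [dd, hu, hy]
      have h6 : ∑ y ∈ Xᶜ, dd X u y = 0 := sum_eq_zero fun y hy => by
        rw [mem_compl] at hy
        simp [dd, hu, hy]
      rw [h5, h6, add_zero]
      simp
    rw [sum_congr rfl h2, sum_congr rfl h3, sum_const, sum_const, smul_eq_mul, smul_eq_mul]
    ring
  rw [h1, h4] at h
  have h5 : X.card + Xᶜ.card = 2 ^ d := by
    rw [card_add_card_compl]
    simp [ZMod.card]
  have h6 : 2 ^ d ≤ 2 * Xᶜ.card := by omega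
  -- `2 * (2 * (a * b)) ≤ N * (2 * E)` with `N ≤ 2 b`
  have h7 : X.card * 2 ^ d ≤ 2 ^ d * ∑ x ∈ X, cnt Xᶜ x := by
    have h8 : X.card * 2 ^ d ≤ X.card * (2 * Xᶜ.card) := Nat.mul_le_mul_left _ h6
    nlinarith
  have h9 : 0 < 2 ^ d := by positivity
  rw [mul_comm] at h7
  exact Nat.le_of_mul_le_mul_left h7 h9

theorem card_class (a : ZMod 2) (hd : 0 < d) :
    2 * (univ.filter fun x : Fin d → ZMod 2 => par x = a).card = 2 ^ d := by
  have h1 : (univ.filter fun x : Fin d → ZMod 2 => par x = a).card =
      (univ.filter fun x : Fin d → ZMod 2 => ¬ par x = a).card := by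
    refine card_equiv (Equiv.addRight (e ⟨0, hd⟩)) ?_
    intro x
    simp only [mem_filter, mem_univ, true_and, Equiv.coe_addRight]
    rw [par_add_e]
    generalize par x = b
    revert a b
    decide
  have h2 := card_filter_add_card_filter_not (s := (univ : Finset (Fin d → ZMod 2)))
    (fun x => par x = a)
  rw [card_univ] at h2
  have h3 : Fintype.card (Fin d → ZMod 2) = 2 ^ d := by simp [ZMod.card]
  omega

theorem z2_cases : ∀ a b : ZMod 2, b = a ∨ b = a + 1 := by decide

theorem z2_ne : ∀ a : ZMod 2, a + 1 ≠ a := by decide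

theorem upper_aux (hd : Even d) (h4 : 4 ≤ d) (S : Finset (Fin d → ZMod 2))
    (hS : IsOddIndep (cube d) S) (a : ZMod 2)
    (ha : (S.filter fun x => par x = a + 1).card ≤ (S.filter fun x => par x = a).card) :
    d * S.card + 2 ^ (d - 1) ≤ d * 2 ^ (d - 1) := by
  classical
  set Va : Finset (Fin d → ZMod 2) := univ.filter fun x => par x = a with hVa
  set Vb : Finset (Fin d → ZMod 2) := univ.filter fun x => par x = a + 1 with hVb
  set T : Finset (Fin d → ZMod 2) := S.filter fun x => par x = a + 1 with hT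
  set Sa : Finset (Fin d → ZMod 2) := S.filter fun x => par x = a with hSa
  set R : Finset (Fin d → ZMod 2) := Va \ S with hR
  set N : Finset (Fin d → ZMod 2) := univ.filter fun u => ∃ i, u + e i ∈ T with hN
  have hab : ∀ b : ZMod 2, b = a ∨ b = a + 1 := z2_cases a
  have hne : a + 1 ≠ a := z2_ne a
  have haa : a + 1 + 1 = a := by
    rw [add_assoc, show (1 : ZMod 2) + 1 = 0 by decide, add_zero]
  have hpow : 2 ^ d = 2 * 2 ^ (d - 1) := by
    rw [← pow_succ']
    congr 1
    omega
  have hVac : Va.card = 2 ^ (d - 1) := by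
    have := card_class (d := d) a (by omega)
    rw [← hVa] at this
    omega
  have hVbc : Vb.card = 2 ^ (d - 1) := by
    have := card_class (d := d) (a + 1) (by omega)
    rw [← hVb] at this
    omega
  have hmT : ∀ x, x ∈ T ↔ x ∈ S ∧ par x = a + 1 := fun x => mem_filter
  have hmVa : ∀ x, x ∈ Va ↔ par x = a := fun x => by simp [hVa]
  have hmVb : ∀ x, x ∈ Vb ↔ par x = a + 1 := fun x => by simp [hVb]
  have hmR : ∀ x, x ∈ R ↔ par x = a ∧ x ∉ S := fun x => by rw [hR, mem_sdiff, hmVa]
  have hmN : ∀ x, x ∈ N ↔ ∃ i, x + e i ∈ T := fun x => by simp [hN]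
  -- independence
  have hind : ∀ x i, x ∈ S → x + e i ∉ S := by
    intro x i hx hx'
    have hadj : (cube d).Adj x (x + e i) := (adj_iff _ _).2 ⟨i, rfl⟩
    exact hS.1 (mem_coe.2 hx) (mem_coe.2 hx') hadj.ne hadj
  have hNR : N ⊆ R := by
    intro x hx
    obtain ⟨i, hi⟩ := (hmN x).1 hx
    rw [hmT] at hi
    rw [hmR]
    constructor
    · have := hi.2
      rw [par_add_e] at this
      exact add_right_cancel this
    · intro hxS
      exact hind x i hxS hi.1
  have hSc : S.card = Sa.card + T.card := by
    rw [hSa, hT, ← card_union_of_disjoint]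
    · congr 1
      ext x
      rw [mem_union, mem_filter, mem_filter]
      constructor
      · intro hx
        rcases hab (par x) with h | h
        · exact Or.inl ⟨hx, h⟩
        · exact Or.inr ⟨hx, h⟩
      · rintro (h | h)
        · exact h.1
        · exact h.1
    · rw [disjoint_left]
      intro x hx hx'
      have h1 := (mem_filter.1 hx).2
      have h2 := (mem_filter.1 hx').2
      exact hne (h2.symm.trans h1)
  have hRc : Sa.card + R.card = 2 ^ (d - 1) := by
    rw [← hVac, ← card_union_of_disjoint]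
    · congr 1
      ext x
      rw [mem_union, hmR, hmVa, mem_filter]
      constructor
      · rintro (h | h)
        · exact h.2
        · exact h.1
      · intro h
        by_cases hx : x ∈ S
        · exact Or.inl ⟨hx, h⟩
        · exact Or.inr ⟨h, hx⟩
    · rw [disjoint_left]
      intro x hx hx'
      exact ((hmR x).1 hx').2 (mem_filter.1 hx).1
  have hTVb : T ⊆ Vb := fun x hx => (hmVb x).2 ((hmT x).1 hx).2
  -- double counting the edges between `Vb` and `R`
  have hcount : ∑ v ∈ Vb, cnt R v = d * R.card := by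
    rw [swap]
    have : ∀ u ∈ R, cnt Vb u = d := by
      intro u hu
      have h1 := ((hmR u).1 hu).1
      rw [cnt, filter_true_of_mem, card_univ, Fintype.card_fin]
      intro i _
      rw [hmVb, par_add_e, h1]
    rw [sum_congr rfl this, sum_const, smul_eq_mul, mul_comm]
  have hT1 : ∀ v ∈ T, cnt R v = d := by
    intro v hv
    rw [cnt, filter_true_of_mem, card_univ, Fintype.card_fin]
    intro i _
    apply hNR
    rw [hmN]
    exact ⟨i, by rw [add_e_add_e]; exact hv⟩
  -- the vertices of `Vb` outside `T`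
  have hTN : ∀ t i, t ∈ T → t + e i ∈ N := fun t i ht => (hmN _).2 ⟨i, by
    rw [add_e_add_e]; exact ht⟩
  have hcR : ∀ v ∈ Vb \ T, 3 + 2 * cnt N v ≤ 3 * cnt R v := by
    intro v hv
    rw [mem_sdiff] at hv
    have hvb := (hmVb v).1 hv.1
    have hvS : v ∉ S := fun h => hv.2 ((hmT v).2 ⟨h, hvb⟩)
    have h1 : cnt N v ≤ cnt R v := by
      apply card_le_card
      intro i hi
      rw [mem_filter] at hi ⊢
      exact ⟨mem_univ _, hNR hi.2⟩
    have h2 : cnt R v = d - cnt S v := by
      have h3 : (univ.filter fun i => v + e i ∈ R) = univ.filter fun i => ¬ v + e i ∈ S := by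
        ext i
        simp only [mem_filter, mem_univ, true_and]
        rw [hmR, par_add_e, hvb, haa]
        simp
      rw [cnt, h3, filter_not, card_sdiff_of_subset (filter_subset _ _), card_univ,
        Fintype.card_fin]
      rfl
    have h3 : cnt S v = 0 ∨ Odd (cnt S v) := by
      have h5 := ncard_nbr v S
      rcases hS.2 v hvS with h | h
      · left
        rw [h, Set.ncard_empty] at h5
        exact h5.symm
      · right
        rw [h5] at h
        exact h
    have h5 : cnt N v ≠ 1 := by
      intro h6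
      obtain ⟨i, hi⟩ := card_eq_one.1 h6
      have hi' : v + e i ∈ N := by
        have : i ∈ univ.filter fun i => v + e i ∈ N := by rw [hi]; exact mem_singleton_self i
        exact (mem_filter.1 this).2
      obtain ⟨j, hj⟩ := (hmN _).1 hi'
      have hij : i ≠ j := by
        rintro rfl
        rw [add_e_add_e] at hj
        exact hv.2 hj
      have hj' : v + e j ∈ N := by
        rw [hmN]
        refine ⟨i, ?_⟩
        rw [add_right_comm]
        exact hj
      have : j ∈ univ.filter fun i => v + e i ∈ N := mem_filter.2 ⟨mem_univ _, hj'⟩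
      rw [hi, mem_singleton] at this
      exact hij this.symm
    have h6 := cnt_le N v
    obtain ⟨c, hc⟩ := hd
    rcases h3 with h3 | ⟨b, hb⟩
    · omega
    · have h7 := cnt_le S v
      omega
  -- the boundary of `T ∪ N`
  have hTNd : Disjoint T N := by
    rw [disjoint_left]
    intro x hx hx'
    have h1 := ((hmR x).1 (hNR hx')).1
    have h2 := ((hmT x).1 hx).2
    exact hne (h2.symm.trans h1)
  have hbd : ∑ x ∈ T ∪ N, cnt (T ∪ N)ᶜ x = ∑ v ∈ Vb \ T, cnt N v := by
    rw [sum_union hTNd]
    have h1 : ∑ x ∈ T, cnt (T ∪ N)ᶜ x = 0 := by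
      apply sum_eq_zero
      intro x hx
      rw [cnt, card_eq_zero, filter_eq_empty_iff]
      intro i _ hi
      rw [mem_compl, mem_union] at hi
      exact hi (Or.inr (hTN x i hx))
    rw [h1, zero_add, swap (Vb \ T) N]
    refine sum_congr rfl fun u hu => ?_
    rw [cnt, cnt]
    congr 1
    ext i
    simp only [mem_filter, mem_univ, true_and]
    rw [mem_compl, mem_union, mem_sdiff, hmVb]
    have hu' := ((hmR u).1 (hNR hu)).1
    have h2 : u + e i ∉ N := by
      intro h3
      have h5 := ((hmR _).1 (hNR h3)).1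
      rw [par_add_e, hu'] at h5
      exact hne h5
    rw [par_add_e, hu']
    simp [h2]
  have hNc : T.card ≤ N.card := by
    have h1 : ∑ v ∈ T, cnt N v = d * T.card := by
      have : ∀ v ∈ T, cnt N v = d := by
        intro v hv
        rw [cnt, filter_true_of_mem, card_univ, Fintype.card_fin]
        intro i _
        exact hTN v i hv
      rw [sum_congr rfl this, sum_const, smul_eq_mul, mul_comm]
    have h2 : ∑ v ∈ N, cnt T v ≤ d * N.card := by
      have : ∀ v ∈ N, cnt T v ≤ d := fun v _ => cnt_le T v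
      refine le_trans (sum_le_sum this) ?_
      rw [sum_const, smul_eq_mul, mul_comm]
    rw [swap, h1] at h2
    · exact Nat.le_of_mul_le_mul_left h2 (by omega)
  have hXc : 2 * (T ∪ N).card ≤ 2 ^ d := by
    rw [card_union_of_disjoint hTNd, hpow]
    have h1 : N.card ≤ R.card := card_le_card hNR
    omega
  have hiso := boundary_ge (T ∪ N) hXc
  rw [hbd, card_union_of_disjoint hTNd] at hiso
  -- conclusion
  have hsplit : ∑ v ∈ Vb, cnt R v = ∑ v ∈ T, cnt R v + ∑ v ∈ Vb \ T, cnt R v := by
    rw [add_comm, sum_sdiff hTVb]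
  have hsT : ∑ v ∈ T, cnt R v = d * T.card := by
    rw [sum_congr rfl hT1, sum_const, smul_eq_mul, mul_comm]
  have hsR : 3 * (Vb \ T).card + 2 * ∑ v ∈ Vb \ T, cnt N v ≤ 3 * ∑ v ∈ Vb \ T, cnt R v := by
    rw [mul_sum, mul_sum]
    have : 3 * (Vb \ T).card = ∑ v ∈ Vb \ T, 3 := by
      rw [sum_const, smul_eq_mul, mul_comm]
    rw [this, ← sum_add_distrib]
    exact sum_le_sum hcR
  have hVT : (Vb \ T).card + T.card = 2 ^ (d - 1) := by
    rw [card_sdiff_add_card_eq_card hTVb, hVbc]
  rw [hcount, hsT] at hsplit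
  have hfin : 2 ^ (d - 1) + d * T.card ≤ d * R.card := by
    omega
  have h8 : d * S.card + d * R.card = d * 2 ^ (d - 1) + d * T.card := by
    rw [hSc, ← hRc]
    ring
  omega

theorem upper (hd : Even d) (h4 : 4 ≤ d) (S : Finset (Fin d → ZMod 2))
    (hS : IsOddIndep (cube d) S) : d * S.card + 2 ^ (d - 1) ≤ d * 2 ^ (d - 1) := by
  rcases le_total (S.filter fun x => par x = 1).card (S.filter fun x => par x = 0).card with h | h
  · exact upper_aux hd h4 S hS 0 (by simpa using h)
  · exact upper_aux hd h4 S hS 1 (by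
      have : (1 : ZMod 2) + 1 = 0 := by decide
      rw [this]
      exact h)

end Pool.Agent.R47.OddCube
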